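import Pool.Agent.Q131.NA.Many

set_option autoImplicit false

namespace Pool.Agent.Q131.NA

open Finset

/-- the array `L` agrees with the table of `G` in the cell `(x, y)` -/
def Agree {n : ℕ} {G : Type} [AddCommGroup G] (L : Fin n → Fin n → Fin n) (α β γ : Fin n ≃ G)
    (x y : Fin n) : Prop := γ (L x y) = α x + β y

/-- at most `D` cells in each row, in each column and of each symbol are different from the table
of `G` -/
structure Near {n : ℕ} {G : Type} [AddCommGroup G] (L : Fin n → Fin n → Fin n)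
    (α β γ : Fin n ≃ G) (D : ℕ) : Prop where
  row : ∀ x, Nat.card {y // ¬ Agree L α β γ x y} ≤ D
  col : ∀ y, Nat.card {x // ¬ Agree L α β γ x y} ≤ D
  sym : ∀ s, Nat.card {x // ∃ y, L x y = s ∧ ¬ Agree L α β γ x y} ≤ D

section
variable {n : ℕ} {G : Type} [AddCommGroup G] [Fintype G] [DecidableEq G]

/-- the cells of `G × G` in which `L` is different from the table -/
noncomputable def badc (L : Fin n → Fin n → Fin n) (α β γ : Fin n ≃ G) : Finset (G × G) := by
  classical
  exact univ.filter fun p => ¬ Agree L α β γ (α.symm p.1) (β.symm p.2)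

theorem mem_badc (L : Fin n → Fin n → Fin n) (α β γ : Fin n ≃ G) (p : G × G) :
    p ∈ badc L α β γ ↔ ¬ Agree L α β γ (α.symm p.1) (β.symm p.2) := by
  classical
  unfold badc
  simp

theorem sparse_badc (L : Fin n → Fin n → Fin n) (hL : ∀ x, Function.Injective (L x))
    (α β γ : Fin n ≃ G) (D : ℕ)
    (h : Near L α β γ D) : Sparse (badc L α β γ) D := by
  classical
  refine ⟨fun x => ?_, fun y => ?_, fun s => ?_⟩
  · refine le_trans ?_ (h.row (α.symm x))
    rw [Nat.card_eq_fintype_card, Fintype.card_subtype]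
    refine Finset.card_le_card_of_injOn (fun y => β.symm y) ?_ (β.symm.injective.injOn)
    intro y hy
    simp only [coe_filter, mem_univ, true_and, Set.mem_ofPred_eq] at hy ⊢
    exact (mem_badc L α β γ _).mp hy
  · refine le_trans ?_ (h.col (β.symm y))
    rw [Nat.card_eq_fintype_card, Fintype.card_subtype]
    refine Finset.card_le_card_of_injOn (fun x => α.symm x) ?_ (α.symm.injective.injOn)
    intro x hx
    simp only [coe_filter, mem_univ, true_and, Set.mem_ofPred_eq] at hx ⊢
    exact (mem_badc L α β γ _).mp hx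
  · refine le_trans ?_ (h.sym (γ.symm s))
    rw [Nat.card_eq_fintype_card, Fintype.card_subtype]
    refine Finset.card_le_card_of_injOn (fun x => α.symm x) ?_ (α.symm.injective.injOn)
    intro x hx
    simp only [coe_filter, mem_univ, true_and, Set.mem_ofPred_eq] at hx ⊢
    have h1 := (mem_badc L α β γ _).mp hx
    simp only at h1
    obtain ⟨y, hy⟩ := (Finite.injective_iff_surjective.mp (hL (α.symm x))) (γ.symm s)
    refine ⟨y, hy, fun hag => h1 ?_⟩
    unfold Agree at hag ⊢
    rw [hy, Equiv.apply_symm_apply, Equiv.apply_symm_apply] at hag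
    have h2 : β.symm (s - x) = y := by
      rw [Equiv.symm_apply_eq, hag]
      abel
    rw [h2, hy, Equiv.apply_symm_apply, Equiv.apply_symm_apply]
    exact hag

theorem sum_univ_zero (h : Odd (Fintype.card G)) : ∑ x : G, x = 0 := by
  have h1 : ∑ x : G, x = ∑ x : G, (-x) := (Equiv.sum_comp (Equiv.neg G) (fun x => x)).symm
  rw [Finset.sum_neg_distrib] at h1
  have h2 := (two_bij h).injective
  apply h2
  simp only [add_zero]
  nth_rewrite 1 [h1]
  simp

end

/-- **Latin squares near tables.** -/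
theorem arr : ∃ n₀ : ℕ, ∀ n : ℕ, n₀ ≤ n → Odd n → ∀ (L : Fin n → Fin n → Fin n),
    (∀ x, Function.Injective (L x)) →
    ∀ (G : Type) [AddCommGroup G] (α β γ : Fin n ≃ G) (D : ℕ), Near L α β γ D →
    ∀ P : Finset (Fin n × Fin n), (∀ p ∈ P, Agree L α β γ p.1 p.2) →
    Set.InjOn (fun p : Fin n × Fin n => p.1) (P : Set (Fin n × Fin n)) →
    Set.InjOn (fun p : Fin n × Fin n => p.2) (P : Set (Fin n × Fin n)) →
    Set.InjOn (fun p : Fin n × Fin n => L p.1 p.2) (P : Set (Fin n × Fin n)) →
    10 ^ 10 * P.card ≤ n → ∀ t : ℕ, 10 ^ 10 * (D + t) ≤ n →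
    ∃ Φ : Fin (t + 1) → Equiv.Perm (Fin n),
      (∀ i, Function.Bijective fun x => L x (Φ i x)) ∧ (∀ i, ∀ p ∈ P, Φ i p.1 = p.2) ∧
      ∀ i j, i ≠ j → ∀ x, (x, Φ i x) ∉ P → Φ i x ≠ Φ j x := by
  classical
  obtain ⟨n₀, hn₀⟩ := many_thm
  refine ⟨n₀, fun n hn hodd L hL G _ α β γ D hD P hag h1 h2 h3 hP t ht => ?_⟩
  have : Fintype G := Fintype.ofEquiv _ α
  have hcard : Fintype.card G = n := by
    rw [← Fintype.card_congr α, Fintype.card_fin]
  set PR := P.image fun p => α p.1 with hPR
  set PC := P.image fun p => β p.2 with hPC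
  set PS := P.image fun p => γ (L p.1 p.2) with hPS
  have cR : PR.card = P.card := Finset.card_image_of_injOn
    (fun p hp q hq h => h1 hp hq (α.injective h))
  have cC : PC.card = P.card := Finset.card_image_of_injOn
    (fun p hp q hq h => h2 hp hq (β.injective h))
  have cS : PS.card = P.card := Finset.card_image_of_injOn
    (fun p hp q hq h => h3 hp hq (γ.injective h))
  have hodd' : Odd (Fintype.card G) := by rw [hcard]; exact hodd
  have hz := sum_univ_zero hodd'
  have hcompl : ∀ X : Finset G, ∑ x ∈ Xᶜ, x = - ∑ x ∈ X, x := by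
    intro X
    rw [eq_neg_iff_add_eq_zero, add_comm, Finset.sum_add_sum_compl, hz]
  have hPn : P.card ≤ n := by omega
  obtain ⟨T, hT, hd⟩ := hn₀ G hodd' (by rw [hcard]; exact hn) PRᶜ PCᶜ PSᶜ
    (by rw [card_compl, card_compl, cR, cC]) (by rw [card_compl, card_compl, cR, cS])
    (by
      rw [hcompl, hcompl, hcompl, hPR, hPC, hPS, Finset.sum_image, Finset.sum_image,
        Finset.sum_image, ← neg_add, ← Finset.sum_add_distrib]
      · congr 1
        exact Finset.sum_congr rfl fun p hp => (hag p hp).symm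
      · exact fun p hp q hq h => h3 hp hq (γ.injective h)
      · exact fun p hp q hq h => h2 hp hq (β.injective h)
      · exact fun p hp q hq h => h1 hp hq (α.injective h))
    (by rw [card_compl, cR, hcard]; omega) t (badc L α β γ) D (sparse_badc L hL α β γ D hD)
    (by rw [hcard]; exact ht)
  have hf := fun i => exists_fun (hT i).1 (hT i).2 (by rw [card_compl, card_compl, cR, cC])
    (by rw [card_compl, card_compl, cR, cS])
  choose f hf1 hf2 hf3 using hf
  -- the permutation
  have hex : ∀ i : Fin (t + 1), ∀ x : Fin n, ∃ y : Fin n,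
      ((∀ p ∈ P, p.1 ≠ x) → y = β.symm (f i (α x))) ∧ (∀ p ∈ P, p.1 = x → y = p.2) := by
    intro i x
    by_cases hx : ∃ p ∈ P, p.1 = x
    · obtain ⟨p, hp, hpx⟩ := hx
      refine ⟨p.2, fun h => absurd hpx (h p hp), fun q hq hqx => ?_⟩
      rw [h1 (mem_coe.mpr hp) (mem_coe.mpr hq) (by simp only; rw [hpx, hqx])]
    · push Not at hx
      exact ⟨β.symm (f i (α x)), fun _ => rfl, fun p hp h => absurd h (hx p hp)⟩
  choose φ hφ1 hφ2 using hex
  have hmemR : ∀ x : Fin n, (∀ p ∈ P, p.1 ≠ x) → α x ∈ PRᶜ := by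
    intro x hx
    rw [mem_compl, hPR, mem_image]
    rintro ⟨p, hp, h⟩
    exact hx p hp (α.injective h)
  -- agreement outside P
  have hagr : ∀ i x, (∀ p ∈ P, p.1 ≠ x) → γ (L x (φ i x)) = α x + f i (α x) := by
    intro i x hx
    have h4 := (hT i).1.out _ (hf1 i (α x) (hmemR x hx))
    rw [mem_badc, not_not] at h4
    simp only [Equiv.symm_apply_apply] at h4
    unfold Agree at h4
    rw [hφ1 i x hx, h4, Equiv.apply_symm_apply]
  have hinj : ∀ i, Function.Injective (φ i) := by
    intro i x y hxy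
    by_cases hx : ∃ p ∈ P, p.1 = x
    · obtain ⟨p, hp, rfl⟩ := hx
      have e1 := hφ2 i p.1 p hp rfl
      by_cases hy : ∃ q ∈ P, q.1 = y
      · obtain ⟨q, hq, rfl⟩ := hy
        have e2 := hφ2 i q.1 q hq rfl
        rw [h2 (mem_coe.mpr hp) (mem_coe.mpr hq) (by simp only; rw [← e1, ← e2, hxy])]
      · push Not at hy
        have e2 := hφ1 i y hy
        have h5 := (hf2 i).mapsTo (hmemR y hy)
        exfalso
        rw [mem_coe, mem_compl, hPC, mem_image] at h5
        apply h5
        refine ⟨p, hp, ?_⟩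
        rw [← e1, hxy, e2, Equiv.apply_symm_apply]
    · push Not at hx
      by_cases hy : ∃ q ∈ P, q.1 = y
      · obtain ⟨q, hq, rfl⟩ := hy
        have e2 := hφ2 i q.1 q hq rfl
        have e1 := hφ1 i x hx
        have h5 := (hf2 i).mapsTo (hmemR x hx)
        exfalso
        rw [mem_coe, mem_compl, hPC, mem_image] at h5
        apply h5
        refine ⟨q, hq, ?_⟩
        rw [← e2, ← hxy, e1, Equiv.apply_symm_apply]
      · push Not at hy
        rw [hφ1 i x hx, hφ1 i y hy] at hxy
        exact α.injective ((hf2 i).injOn (hmemR x hx) (hmemR y hy) (β.symm.injective hxy))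
  have hsinj : ∀ i, Function.Injective fun x => L x (φ i x) := by
    intro i x y hxy
    simp only at hxy
    by_cases hx : ∃ p ∈ P, p.1 = x
    · obtain ⟨p, hp, rfl⟩ := hx
      have e1 := hφ2 i p.1 p hp rfl
      by_cases hy : ∃ q ∈ P, q.1 = y
      · obtain ⟨q, hq, rfl⟩ := hy
        have e2 := hφ2 i q.1 q hq rfl
        rw [e1, e2] at hxy
        rw [h3 (mem_coe.mpr hp) (mem_coe.mpr hq) hxy]
      · push Not at hy
        have h5 := (hf3 i).mapsTo (hmemR y hy)
        exfalso
        rw [mem_coe, mem_compl, hPS, mem_image] at h5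
        apply h5
        refine ⟨p, hp, ?_⟩
        rw [← hagr i y hy, ← hxy, e1]
    · push Not at hx
      by_cases hy : ∃ q ∈ P, q.1 = y
      · obtain ⟨q, hq, rfl⟩ := hy
        have e2 := hφ2 i q.1 q hq rfl
        have h5 := (hf3 i).mapsTo (hmemR x hx)
        exfalso
        rw [mem_coe, mem_compl, hPS, mem_image] at h5
        apply h5
        refine ⟨q, hq, ?_⟩
        rw [← hagr i x hx, hxy, e2]
      · push Not at hy
        have e := congrArg γ hxy
        rw [hagr i x hx, hagr i y hy] at e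
        exact α.injective ((hf3 i).injOn (hmemR x hx) (hmemR y hy) e)
  refine ⟨fun i => Equiv.ofBijective (φ i) (Finite.injective_iff_bijective.mp (hinj i)), ?_, ?_, ?_⟩
  · intro i
    exact Finite.injective_iff_bijective.mp (hsinj i)
  · intro i p hp
    exact hφ2 i p.1 p hp rfl
  · intro i j hij x hx
    simp only [Equiv.ofBijective_apply] at hx ⊢
    have hx' : ∀ p ∈ P, p.1 ≠ x := by
      intro p hp h
      apply hx
      rw [← h, hφ2 i p.1 p hp rfl]
      exact hp
    intro h
    rw [hφ1 i x hx', hφ1 j x hx'] at h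
    have h4 := β.symm.injective h
    have h5 := hf1 i (α x) (hmemR x hx')
    have h6 := hf1 j (α x) (hmemR x hx')
    rw [h4] at h5
    exact (Finset.disjoint_left.mp (hd i j hij)) h5 h6

end Pool.Agent.Q131.NA
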