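import Pool.Agent.Q131.NA.Strong
import Pool.Agent.Q131.NA.Arr

set_option autoImplicit false

namespace Pool.Agent.Q131.NA

open Finset

/-- number of the cells in row `x` in which `L` agrees with the table -/
noncomputable def rowAgr {n : ℕ} {G : Type} [AddCommGroup G] (L : Fin n → Fin n → Fin n)
    (α β γ : Fin n ≃ G) (x : Fin n) : ℕ := Nat.card {y // Agree L α β γ x y}

/-- number of the cells in column `y` in which `L` agrees with the table -/
noncomputable def colAgr {n : ℕ} {G : Type} [AddCommGroup G] (L : Fin n → Fin n → Fin n)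
    (α β γ : Fin n ≃ G) (y : Fin n) : ℕ := Nat.card {x // Agree L α β γ x y}

/-- number of the cells with symbol `s` in which `L` agrees with the table -/
noncomputable def symAgr {n : ℕ} {G : Type} [AddCommGroup G] (L : Fin n → Fin n → Fin n)
    (α β γ : Fin n ≃ G) (s : Fin n) : ℕ :=
  Nat.card {p : Fin n × Fin n // L p.1 p.2 = s ∧ Agree L α β γ p.1 p.2}

/-- partial transversals of `L` such that the sum of the symbols (in `G`) is the sum of the rows and
the columns; for instance all the cells may agree with the table -/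
structure Part {n : ℕ} {G : Type} [AddCommGroup G] (L : Fin n → Fin n → Fin n)
    (α β γ : Fin n ≃ G) (P : Finset (Fin n × Fin n)) : Prop where
  row : Set.InjOn (fun p : Fin n × Fin n => p.1) (P : Set (Fin n × Fin n))
  col : Set.InjOn (fun p : Fin n × Fin n => p.2) (P : Set (Fin n × Fin n))
  sym : Set.InjOn (fun p : Fin n × Fin n => L p.1 p.2) (P : Set (Fin n × Fin n))
  sum : ∑ p ∈ P, γ (L p.1 p.2) = ∑ p ∈ P, (α p.1 + β p.2)

/-- Of the rows, columns and symbols which are not used by `P` all but at most `q` have at most `D`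
cells which do not agree with the table, and all have more than `a` cells which agree. -/
structure Close {n : ℕ} {G : Type} [AddCommGroup G] (L : Fin n → Fin n → Fin n)
    (α β γ : Fin n ≃ G) (P : Finset (Fin n × Fin n)) (D q a : ℕ) : Prop where
  most : Nat.card {x // (∀ p ∈ P, p.1 ≠ x) ∧ rowAgr L α β γ x + D < n} +
    Nat.card {y // (∀ p ∈ P, p.2 ≠ y) ∧ colAgr L α β γ y + D < n} +
    Nat.card {s // (∀ p ∈ P, L p.1 p.2 ≠ s) ∧ symAgr L α β γ s + D < n} ≤ q
  row : ∀ x, (∀ p ∈ P, p.1 ≠ x) → a < rowAgr L α β γ x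
  col : ∀ y, (∀ p ∈ P, p.2 ≠ y) → a < colAgr L α β γ y
  sym : ∀ s, (∀ p ∈ P, L p.1 p.2 ≠ s) → a < symAgr L α β γ s

section
variable {n : ℕ} {G : Type} [AddCommGroup G] [Fintype G] [DecidableEq G]

theorem row_eq (L : Fin n → Fin n → Fin n) (α β γ : Fin n ≃ G) (x : G) :
    (univ.filter fun y => (x, y) ∉ badc L α β γ).card = rowAgr L α β γ (α.symm x) := by
  classical
  unfold rowAgr
  rw [Nat.card_eq_fintype_card, Fintype.card_subtype]
  refine Finset.card_nbij' (fun y => β.symm y) (fun y => β y) ?_ ?_ ?_ ?_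
  · intro y hy
    simp only [coe_filter, mem_univ, true_and, Set.mem_ofPred_eq, mem_badc, not_not] at hy ⊢
    exact hy
  · intro y hy
    simp only [coe_filter, mem_univ, true_and, Set.mem_ofPred_eq, mem_badc, not_not,
      Equiv.symm_apply_apply] at hy ⊢
    exact hy
  · intro y _; simp
  · intro y _; simp

theorem col_eq (L : Fin n → Fin n → Fin n) (α β γ : Fin n ≃ G) (y : G) :
    (univ.filter fun x => (x, y) ∉ badc L α β γ).card = colAgr L α β γ (β.symm y) := by
  classical
  unfold colAgr
  rw [Nat.card_eq_fintype_card, Fintype.card_subtype]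
  refine Finset.card_nbij' (fun x => α.symm x) (fun x => α x) ?_ ?_ ?_ ?_
  · intro y hy
    simp only [coe_filter, mem_univ, true_and, Set.mem_ofPred_eq, mem_badc, not_not] at hy ⊢
    exact hy
  · intro y hy
    simp only [coe_filter, mem_univ, true_and, Set.mem_ofPred_eq, mem_badc, not_not,
      Equiv.symm_apply_apply] at hy ⊢
    exact hy
  · intro y _; simp
  · intro y _; simp

theorem sym_eq (L : Fin n → Fin n → Fin n) (α β γ : Fin n ≃ G) (s : G) :
    (univ.filter fun x => (x, s - x) ∉ badc L α β γ).card = symAgr L α β γ (γ.symm s) := by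
  classical
  unfold symAgr
  rw [Nat.card_eq_fintype_card, Fintype.card_subtype]
  refine Finset.card_nbij' (fun x => (α.symm x, β.symm (s - x))) (fun p => α p.1) ?_ ?_ ?_ ?_
  · intro x hx
    simp only [coe_filter, mem_univ, true_and, Set.mem_ofPred_eq, mem_badc, not_not] at hx ⊢
    refine ⟨?_, hx⟩
    unfold Agree at hx
    rw [Equiv.apply_symm_apply, Equiv.apply_symm_apply, add_sub_cancel] at hx
    rw [Equiv.eq_symm_apply, hx]
  · intro p hp
    simp only [coe_filter, mem_univ, true_and, Set.mem_ofPred_eq, mem_badc, not_not,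
      Equiv.symm_apply_apply] at hp ⊢
    obtain ⟨h1, h2⟩ := hp
    have h3 : β.symm (s - α p.1) = p.2 := by
      rw [Equiv.symm_apply_eq]
      unfold Agree at h2
      rw [h1, Equiv.apply_symm_apply] at h2
      rw [h2]
      abel
    rw [h3]
    exact h2
  · intro x _; simp
  · intro p hp
    simp only [coe_filter, mem_univ, true_and, Set.mem_ofPred_eq] at hp
    obtain ⟨h1, h2⟩ := hp
    have h3 : β.symm (s - α p.1) = p.2 := by
      rw [Equiv.symm_apply_eq]
      unfold Agree at h2
      rw [h1, Equiv.apply_symm_apply] at h2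
      rw [h2]
      abel
    simp only [Equiv.symm_apply_apply, h3]

theorem filt_card (e : Fin n ≃ G) (W : Fin n → Prop) [DecidablePred W] :
    (univ.filter fun x : G => W (e.symm x)).card = Nat.card {x // W x} := by
  classical
  rw [Nat.card_eq_fintype_card, Fintype.card_subtype]
  refine Finset.card_nbij' (fun x => e.symm x) (fun x => e x) ?_ ?_ ?_ ?_
  · intro y hy
    simpa using hy
  · intro y hy
    simpa using hy
  · intro y _; simp
  · intro y _; simp

theorem two_filt (hG : Fintype.card G = n) (B : Finset (G × G)) (f : G → G × G) :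
    (univ.filter fun y => f y ∈ B).card + (univ.filter fun y => f y ∉ B).card = n := by
  rw [Finset.card_filter_add_card_filter_not, card_univ, hG]

open Classical in
/-- the bad cells in the rows, columns and symbols not used by `P` -/
noncomputable def badr (L : Fin n → Fin n → Fin n) (α β γ : Fin n ≃ G)
    (P : Finset (Fin n × Fin n)) : Finset (G × G) :=
  (badc L α β γ).filter fun c => (∀ p ∈ P, p.1 ≠ α.symm c.1) ∧ (∀ p ∈ P, p.2 ≠ β.symm c.2) ∧
    (∀ p ∈ P, L p.1 p.2 ≠ γ.symm (c.1 + c.2))

open Classical in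
theorem exc_of_close (hG : Fintype.card G = n) (L : Fin n → Fin n → Fin n) (α β γ : Fin n ≃ G)
    (P : Finset (Fin n × Fin n)) (D q a : ℕ) (h : Close L α β γ P D q a) :
    Exc (badr L α β γ P)
      (univ.filter fun x => (∀ p ∈ P, p.1 ≠ α.symm x) ∧ rowAgr L α β γ (α.symm x) + D < n)
      (univ.filter fun y => (∀ p ∈ P, p.2 ≠ β.symm y) ∧ colAgr L α β γ (β.symm y) + D < n)
      (univ.filter fun s => (∀ p ∈ P, L p.1 p.2 ≠ γ.symm s) ∧
        symAgr L α β γ (γ.symm s) + D < n) D a := by
  have hsub : ∀ c, c ∈ badr L α β γ P → c ∈ badc L α β γ := by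
    intro c hc
    unfold badr at hc
    exact (mem_filter.mp hc).1
  have k1 : ∀ f : G → G × G, (univ.filter fun y => f y ∈ badr L α β γ P).card ≤
      (univ.filter fun y => f y ∈ badc L α β γ).card := by
    intro f
    apply Finset.card_le_card
    intro y hy
    simp only [mem_filter, mem_univ, true_and] at hy ⊢
    exact hsub _ hy
  have k2 : ∀ f : G → G × G, (univ.filter fun y => f y ∉ badc L α β γ).card ≤
      (univ.filter fun y => f y ∉ badr L α β γ P).card := by
    intro f
    apply Finset.card_le_card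
    intro y hy
    simp only [mem_filter, mem_univ, true_and] at hy ⊢
    exact fun hc => hy (hsub _ hc)
  have k3 : ∀ f : G → G × G, (∀ y, f y ∉ badr L α β γ P) →
      (univ.filter fun y => f y ∈ badr L α β γ P).card ≤ D := by
    intro f hf
    rw [Finset.filter_false_of_mem (fun y _ => hf y)]
    simp
  refine ⟨fun x hx => ?_, fun y hy => ?_, fun s hs => ?_, fun x hx => ?_, fun y hy => ?_,
    fun s hs => ?_⟩
  · simp only [mem_filter, mem_univ, true_and, not_and, not_lt] at hx
    by_cases hx' : ∀ p ∈ P, p.1 ≠ α.symm x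
    · have := two_filt hG (badc L α β γ) (fun y => (x, y))
      have := row_eq L α β γ x
      have := k1 (fun y => (x, y))
      have := hx hx'
      omega
    · refine k3 _ fun y hc => hx' ?_
      unfold badr at hc
      exact (mem_filter.mp hc).2.1
  · simp only [mem_filter, mem_univ, true_and, not_and, not_lt] at hy
    by_cases hy' : ∀ p ∈ P, p.2 ≠ β.symm y
    · have := two_filt hG (badc L α β γ) (fun x => (x, y))
      have := col_eq L α β γ y
      have := k1 (fun x => (x, y))
      have := hy hy'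
      omega
    · refine k3 _ fun x hc => hy' ?_
      unfold badr at hc
      exact (mem_filter.mp hc).2.2.1
  · simp only [mem_filter, mem_univ, true_and, not_and, not_lt] at hs
    by_cases hs' : ∀ p ∈ P, L p.1 p.2 ≠ γ.symm s
    · have := two_filt hG (badc L α β γ) (fun x => (x, s - x))
      have := sym_eq L α β γ s
      have := k1 (fun x => (x, s - x))
      have := hs hs'
      omega
    · refine k3 _ fun x hc => hs' ?_
      unfold badr at hc
      have h5 := (mem_filter.mp hc).2.2.2
      simpa using h5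
  · simp only [mem_filter, mem_univ, true_and] at hx
    refine lt_of_lt_of_le ?_ (k2 fun y => (x, y))
    rw [row_eq]; exact h.row _ hx.1
  · simp only [mem_filter, mem_univ, true_and] at hy
    refine lt_of_lt_of_le ?_ (k2 fun x => (x, y))
    rw [col_eq]; exact h.col _ hy.1
  · simp only [mem_filter, mem_univ, true_and] at hs
    refine lt_of_lt_of_le ?_ (k2 fun x => (x, s - x))
    rw [sym_eq]; exact h.sym _ hs.1

theorem to_perm (L : Fin n → Fin n → Fin n) (α β γ : Fin n ≃ G) (P : Finset (Fin n × Fin n))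
    (hP : Part L α β γ P) (T : Finset (G × G))
    (hT : State (P.image fun p => α p.1)ᶜ (P.image fun p => β p.2)ᶜ
      (P.image fun p => γ (L p.1 p.2))ᶜ (badr L α β γ P) T)
    (hc : T.card = ((P.image fun p => α p.1)ᶜ).card) :
    ∃ φ : Equiv.Perm (Fin n), (Function.Bijective fun x => L x (φ x)) ∧
      (∀ p ∈ P, φ p.1 = p.2) ∧ ∀ x, (x, φ x) ∉ P → (α x, β (φ x)) ∈ T := by
  classical
  obtain ⟨h1, h2, h3, -⟩ := hP
  set PR := P.image fun p => α p.1 with hPR
  set PC := P.image fun p => β p.2 with hPC
  set PS := P.image fun p => γ (L p.1 p.2) with hPS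
  have cR : PR.card = P.card := Finset.card_image_of_injOn
    (fun p hp q hq h => h1 hp hq (α.injective h))
  have cC : PC.card = P.card := Finset.card_image_of_injOn
    (fun p hp q hq h => h2 hp hq (β.injective h))
  have cS : PS.card = P.card := Finset.card_image_of_injOn
    (fun p hp q hq h => h3 hp hq (γ.injective h))
  obtain ⟨f, hf1, hf2, hf3⟩ := exists_fun hT hc (by rw [card_compl, card_compl, cR, cC])
    (by rw [card_compl, card_compl, cR, cS])
  -- the permutation
  have hex : ∀ x : Fin n, ∃ y : Fin n,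
      ((∀ p ∈ P, p.1 ≠ x) → y = β.symm (f (α x))) ∧ (∀ p ∈ P, p.1 = x → y = p.2) := by
    intro x
    by_cases hx : ∃ p ∈ P, p.1 = x
    · obtain ⟨p, hp, hpx⟩ := hx
      refine ⟨p.2, fun h => absurd hpx (h p hp), fun q hq hqx => ?_⟩
      rw [h1 (mem_coe.mpr hp) (mem_coe.mpr hq) (by simp only; rw [hpx, hqx])]
    · push Not at hx
      exact ⟨β.symm (f (α x)), fun _ => rfl, fun p hp h => absurd h (hx p hp)⟩
  choose φ hφ1 hφ2 using hex
  have hmemR : ∀ x : Fin n, (∀ p ∈ P, p.1 ≠ x) → α x ∈ PRᶜ := by
    intro x hx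
    rw [mem_compl, hPR, mem_image]
    rintro ⟨p, hp, h⟩
    exact hx p hp (α.injective h)
  -- agreement outside P
  have hagr : ∀ x, (∀ p ∈ P, p.1 ≠ x) → γ (L x (φ x)) = α x + f (α x) := by
    intro x hx
    have h4 : (α x, f (α x)) ∉ badc L α β γ := by
      intro hb
      apply hT.out _ (hf1 (α x) (hmemR x hx))
      unfold badr
      rw [mem_filter]
      refine ⟨hb, ?_, ?_, ?_⟩
      · intro p hp
        rw [Equiv.symm_apply_apply]
        exact hx p hp
      · intro p hp h
        have h5 := hf2.mapsTo (hmemR x hx)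
        rw [mem_coe, mem_compl, hPC, mem_image] at h5
        exact h5 ⟨p, hp, by rw [h, Equiv.apply_symm_apply]⟩
      · intro p hp h
        have h5 := hf3.mapsTo (hmemR x hx)
        rw [mem_coe, mem_compl, hPS, mem_image] at h5
        exact h5 ⟨p, hp, by rw [h, Equiv.apply_symm_apply]⟩
    rw [mem_badc, not_not] at h4
    simp only [Equiv.symm_apply_apply] at h4
    unfold Agree at h4
    rw [hφ1 x hx, h4, Equiv.apply_symm_apply]
  have hinj : Function.Injective φ := by
    intro x y hxy
    by_cases hx : ∃ p ∈ P, p.1 = x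
    · obtain ⟨p, hp, rfl⟩ := hx
      have e1 := hφ2 p.1 p hp rfl
      by_cases hy : ∃ q ∈ P, q.1 = y
      · obtain ⟨q, hq, rfl⟩ := hy
        have e2 := hφ2 q.1 q hq rfl
        rw [h2 (mem_coe.mpr hp) (mem_coe.mpr hq) (by simp only; rw [← e1, ← e2, hxy])]
      · push Not at hy
        have e2 := hφ1 y hy
        have h5 := (hf2).mapsTo (hmemR y hy)
        exfalso
        rw [mem_coe, mem_compl, hPC, mem_image] at h5
        apply h5
        refine ⟨p, hp, ?_⟩
        rw [← e1, hxy, e2, Equiv.apply_symm_apply]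
    · push Not at hx
      by_cases hy : ∃ q ∈ P, q.1 = y
      · obtain ⟨q, hq, rfl⟩ := hy
        have e2 := hφ2 q.1 q hq rfl
        have e1 := hφ1 x hx
        have h5 := (hf2).mapsTo (hmemR x hx)
        exfalso
        rw [mem_coe, mem_compl, hPC, mem_image] at h5
        apply h5
        refine ⟨q, hq, ?_⟩
        rw [← e2, ← hxy, e1, Equiv.apply_symm_apply]
      · push Not at hy
        rw [hφ1 x hx, hφ1 y hy] at hxy
        exact α.injective ((hf2).injOn (hmemR x hx) (hmemR y hy) (β.symm.injective hxy))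
  have hsinj : Function.Injective fun x => L x (φ x) := by
    intro x y hxy
    simp only at hxy
    by_cases hx : ∃ p ∈ P, p.1 = x
    · obtain ⟨p, hp, rfl⟩ := hx
      have e1 := hφ2 p.1 p hp rfl
      by_cases hy : ∃ q ∈ P, q.1 = y
      · obtain ⟨q, hq, rfl⟩ := hy
        have e2 := hφ2 q.1 q hq rfl
        rw [e1, e2] at hxy
        rw [h3 (mem_coe.mpr hp) (mem_coe.mpr hq) hxy]
      · push Not at hy
        have h5 := (hf3).mapsTo (hmemR y hy)
        exfalso
        rw [mem_coe, mem_compl, hPS, mem_image] at h5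
        apply h5
        refine ⟨p, hp, ?_⟩
        rw [← hagr y hy, ← hxy, e1]
    · push Not at hx
      by_cases hy : ∃ q ∈ P, q.1 = y
      · obtain ⟨q, hq, rfl⟩ := hy
        have e2 := hφ2 q.1 q hq rfl
        have h5 := (hf3).mapsTo (hmemR x hx)
        exfalso
        rw [mem_coe, mem_compl, hPS, mem_image] at h5
        apply h5
        refine ⟨q, hq, ?_⟩
        rw [← hagr x hx, hxy, e2]
      · push Not at hy
        have e := congrArg γ hxy
        rw [hagr x hx, hagr y hy] at e
        exact α.injective ((hf3).injOn (hmemR x hx) (hmemR y hy) e)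
  refine ⟨Equiv.ofBijective φ (Finite.injective_iff_bijective.mp hinj), ?_, ?_, ?_⟩
  · exact Finite.injective_iff_bijective.mp hsinj
  · intro p hp
    exact hφ2 p.1 p hp rfl
  · intro x hx
    simp only [Equiv.ofBijective_apply] at hx ⊢
    have hx' : ∀ p ∈ P, p.1 ≠ x := by
      intro p hp h
      apply hx
      rw [← h, hφ2 p.1 p hp rfl]
      exact hp
    rw [hφ1 x hx', Equiv.apply_symm_apply]
    exact hf1 (α x) (hmemR x hx')

end

/-- **Arrays close to tables.** -/
theorem arr2 : ∃ n₀ : ℕ, ∀ n : ℕ, n₀ ≤ n → Odd n → ∀ (L : Fin n → Fin n → Fin n)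
    (G : Type) [AddCommGroup G] (α β γ : Fin n ≃ G) (P : Finset (Fin n × Fin n)),
    Part L α β γ P → ∀ D q t : ℕ, Close L α β γ P D q (2 * P.card + 2 * q + t) →
    10 ^ 10 * (P.card + q) ≤ n → 10 ^ 10 * (D + t) ≤ n →
    ∃ Φ : Fin (t + 1) → Equiv.Perm (Fin n),
      (∀ i, Function.Bijective fun x => L x (Φ i x)) ∧ (∀ i, ∀ p ∈ P, Φ i p.1 = p.2) ∧
      ∀ i j, i ≠ j → ∀ x, (x, Φ i x) ∉ P → Φ i x ≠ Φ j x := by
  classical
  obtain ⟨n₀, hn₀⟩ := exc_many
  refine ⟨n₀, fun n hn hodd L G _ α β γ P hP D q t hC hPn hD => ?_⟩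
  have : Fintype G := Fintype.ofEquiv _ α
  have hcard : Fintype.card G = n := by
    rw [← Fintype.card_congr α, Fintype.card_fin]
  have hP' := hP
  obtain ⟨h1, h2, h3, hsum⟩ := hP'
  set PR := P.image fun p => α p.1 with hPR
  set PC := P.image fun p => β p.2 with hPC
  set PS := P.image fun p => γ (L p.1 p.2) with hPS
  have cR : PR.card = P.card := Finset.card_image_of_injOn
    (fun p hp q hq h => h1 hp hq (α.injective h))
  have cC : PC.card = P.card := Finset.card_image_of_injOn
    (fun p hp q hq h => h2 hp hq (β.injective h))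
  have cS : PS.card = P.card := Finset.card_image_of_injOn
    (fun p hp q hq h => h3 hp hq (γ.injective h))
  have hodd' : Odd (Fintype.card G) := by rw [hcard]; exact hodd
  have hz := sum_univ_zero hodd'
  have hcompl : ∀ X : Finset G, ∑ x ∈ Xᶜ, x = - ∑ x ∈ X, x := by
    intro X
    rw [eq_neg_iff_add_eq_zero, add_comm, Finset.sum_add_sum_compl, hz]
  obtain ⟨T, hT, hd⟩ := hn₀ G hodd' (by rw [hcard]; exact hn) PRᶜ PCᶜ PSᶜ
    (univ.filter fun x => (∀ p ∈ P, p.1 ≠ α.symm x) ∧ rowAgr L α β γ (α.symm x) + D < n)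
    (univ.filter fun y => (∀ p ∈ P, p.2 ≠ β.symm y) ∧ colAgr L α β γ (β.symm y) + D < n)
    (univ.filter fun s => (∀ p ∈ P, L p.1 p.2 ≠ γ.symm s) ∧
        symAgr L α β γ (γ.symm s) + D < n) P.card q
    (by rw [card_compl, card_compl, cR, cC]) (by rw [card_compl, card_compl, cR, cS])
    (by
      rw [hcompl, hcompl, hcompl, hPR, hPC, hPS, Finset.sum_image, Finset.sum_image,
        Finset.sum_image, ← neg_add, ← Finset.sum_add_distrib]
      · congr 1
        exact hsum.symm
      · exact fun p hp q hq h => h3 hp hq (γ.injective h)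
      · exact fun p hp q hq h => h2 hp hq (β.injective h)
      · exact fun p hp q hq h => h1 hp hq (α.injective h))
    (by rw [card_compl, cR, hcard]; omega)
    (by
      rw [filt_card α (fun x => (∀ p ∈ P, p.1 ≠ x) ∧ rowAgr L α β γ x + D < n),
        filt_card β (fun y => (∀ p ∈ P, p.2 ≠ y) ∧ colAgr L α β γ y + D < n),
        filt_card γ (fun s => (∀ p ∈ P, L p.1 p.2 ≠ s) ∧ symAgr L α β γ s + D < n)]
      exact hC.most)
    (by rw [hcard]; exact hPn) t (badr L α β γ P) D
    (exc_of_close hcard L α β γ P D q _ hC) (by rw [hcard]; exact hD)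
  have key := fun i => to_perm L α β γ P hP (T i) (hT i).1 (hT i).2
  choose Φ k1 k2 k3 using key
  refine ⟨Φ, k1, k2, ?_⟩
  intro i j hij x hx h
  have a1 := k3 i x hx
  have a2 := k3 j x (by rw [← h]; exact hx)
  rw [← h] at a2
  exact (Finset.disjoint_left.mp (hd i j hij)) a1 a2

end Pool.Agent.Q131.NA
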