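import Pool.Agent.Q131.NA.Defs

set_option autoImplicit false

namespace Pool.Agent.Q131.NA

open Finset

variable {G : Type} [Fintype G]

theorem cnt1 (E : G × G × G → Prop) [DecidablePred E] (m : ℕ)
    (h : ∀ b c, (univ.filter fun a => E (a, b, c)).card ≤ m) :
    (univ.filter E).card ≤ m * Fintype.card G ^ 2 := by
  have h1 : (univ.filter E).card = ∑ b : G, ∑ c : G, (univ.filter fun a => E (a, b, c)).card := by
    simp only [Finset.card_filter]
    rw [Fintype.sum_prod_type]
    simp only [Fintype.sum_prod_type]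
    rw [Finset.sum_comm]
    refine Finset.sum_congr rfl fun b _ => ?_
    rw [Finset.sum_comm]
  rw [h1]
  calc ∑ b : G, ∑ c : G, (univ.filter fun a => E (a, b, c)).card ≤ ∑ _b : G, ∑ _c : G, m :=
        Finset.sum_le_sum fun b _ => Finset.sum_le_sum fun c _ => h b c
    _ = m * Fintype.card G ^ 2 := by
        simp only [Finset.sum_const, Finset.card_univ, smul_eq_mul]
        ring

theorem cnt2 (E : G × G × G → Prop) [DecidablePred E] (m : ℕ)
    (h : ∀ a c, (univ.filter fun b => E (a, b, c)).card ≤ m) :
    (univ.filter E).card ≤ m * Fintype.card G ^ 2 := by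
  have h1 : (univ.filter E).card = ∑ a : G, ∑ c : G, (univ.filter fun b => E (a, b, c)).card := by
    simp only [Finset.card_filter]
    rw [Fintype.sum_prod_type]
    simp only [Fintype.sum_prod_type]
    refine Finset.sum_congr rfl fun a _ => ?_
    rw [Finset.sum_comm]
  rw [h1]
  calc ∑ b : G, ∑ c : G, (univ.filter fun a => E (b, a, c)).card ≤ ∑ _b : G, ∑ _c : G, m :=
        Finset.sum_le_sum fun b _ => Finset.sum_le_sum fun c _ => h b c
    _ = m * Fintype.card G ^ 2 := by
        simp only [Finset.sum_const, Finset.card_univ, smul_eq_mul]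
        ring

theorem cnt3 (E : G × G × G → Prop) [DecidablePred E] (m : ℕ)
    (h : ∀ a b, (univ.filter fun c => E (a, b, c)).card ≤ m) :
    (univ.filter E).card ≤ m * Fintype.card G ^ 2 := by
  have h1 : (univ.filter E).card = ∑ a : G, ∑ b : G, (univ.filter fun c => E (a, b, c)).card := by
    simp only [Finset.card_filter]
    rw [Fintype.sum_prod_type]
    simp only [Fintype.sum_prod_type]
  rw [h1]
  calc ∑ b : G, ∑ c : G, (univ.filter fun a => E (b, c, a)).card ≤ ∑ _b : G, ∑ _c : G, m :=
        Finset.sum_le_sum fun b _ => Finset.sum_le_sum fun c _ => h b c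
    _ = m * Fintype.card G ^ 2 := by
        simp only [Finset.sum_const, Finset.card_univ, smul_eq_mul]
        ring

/-- the variable (0 for `x`, 1 for `s`, 2 for `s'`) is changed to `a` -/
def put {G : Type} (k : Fin 3) (a : G) (v : G × G × G) : G × G × G :=
  match k with
  | 0 => (a, v.2.1, v.2.2)
  | 1 => (v.1, a, v.2.2)
  | 2 => (v.1, v.2.1, a)

theorem cnt (k : Fin 3) (E : G × G × G → Prop) [DecidablePred E] (m : ℕ)
    (h : ∀ v, (univ.filter fun a => E (put k a v)).card ≤ m) :
    (univ.filter E).card ≤ m * Fintype.card G ^ 2 := by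
  rcases isEmpty_or_nonempty G with hG | ⟨⟨g⟩⟩
  · simp
  · fin_cases k
    · exact cnt1 E m fun b c => h (g, b, c)
    · exact cnt2 E m fun a c => h (a, g, c)
    · exact cnt3 E m fun a b => h (a, b, g)

end Pool.Agent.Q131.NA
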