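import Pool.Agent.Q131.NA.Arr2

set_option autoImplicit false

namespace Pool.Agent.Q131.NA

open Finset

section
variable {n : ℕ} {G : Type} [AddCommGroup G]

theorem Part.insert {L : Fin n → Fin n → Fin n} {α β γ : Fin n ≃ G} {P : Finset (Fin n × Fin n)}
    (h : Part L α β γ P) {x y : Fin n} (hx : ∀ p ∈ P, p.1 ≠ x) (hy : ∀ p ∈ P, p.2 ≠ y)
    (hs : ∀ p ∈ P, L p.1 p.2 ≠ L x y) (hag : Agree L α β γ x y) :
    Part L α β γ (insert (x, y) P) ∧ (insert (x, y) P).card = P.card + 1 := by
  have hnot : (x, y) ∉ P := fun hp => hx _ hp rfl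
  refine ⟨⟨?_, ?_, ?_, ?_⟩, ?_⟩
  · intro p hp q hq hpq
    simp only [coe_insert, Set.mem_insert_iff, mem_coe] at hp hq hpq
    rcases hp with rfl | hp <;> rcases hq with rfl | hq
    · rfl
    · exact absurd hpq.symm (hx q hq)
    · exact absurd hpq (hx p hp)
    · exact h.row hp hq hpq
  · intro p hp q hq hpq
    simp only [coe_insert, Set.mem_insert_iff, mem_coe] at hp hq hpq
    rcases hp with rfl | hp <;> rcases hq with rfl | hq
    · rfl
    · exact absurd hpq.symm (hy q hq)
    · exact absurd hpq (hy p hp)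
    · exact h.col hp hq hpq
  · intro p hp q hq hpq
    simp only [coe_insert, Set.mem_insert_iff, mem_coe] at hp hq hpq
    rcases hp with rfl | hp <;> rcases hq with rfl | hq
    · rfl
    · exact absurd hpq.symm (hs q hq)
    · exact absurd hpq (hs p hp)
    · exact h.sym hp hq hpq
  · rw [sum_insert hnot, sum_insert hnot, h.sum]
    unfold Agree at hag
    rw [hag]
  · rw [card_insert_of_notMem hnot]

theorem card_mono {V W : Fin n → Prop} (h : ∀ x, V x → W x) :
    Nat.card {x // V x} ≤ Nat.card {x // W x} := by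
  classical
  rw [Nat.card_eq_fintype_card, Nat.card_eq_fintype_card, Fintype.card_subtype,
    Fintype.card_subtype]
  apply Finset.card_le_card
  intro x hx
  simp only [mem_filter, mem_univ, true_and] at hx ⊢
  exact h x hx

theorem Close.mono {L : Fin n → Fin n → Fin n} {α β γ : Fin n ≃ G} {P P' : Finset (Fin n × Fin n)}
    {D q a a' : ℕ} (h : Close L α β γ P D q a) (hP : P ⊆ P') (ha : a' ≤ a) :
    Close L α β γ P' D q a' := by
  refine ⟨le_trans ?_ h.most, fun x hx => lt_of_le_of_lt ha (h.row x fun p hp => hx p (hP hp)),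
    fun x hx => lt_of_le_of_lt ha (h.col x fun p hp => hx p (hP hp)),
    fun x hx => lt_of_le_of_lt ha (h.sym x fun p hp => hx p (hP hp))⟩
  refine Nat.add_le_add (Nat.add_le_add (card_mono ?_) (card_mono ?_)) (card_mono ?_)
  · exact fun x hx => ⟨fun p hp => hx.1 p (hP hp), hx.2⟩
  · exact fun x hx => ⟨fun p hp => hx.1 p (hP hp), hx.2⟩
  · exact fun x hx => ⟨fun p hp => hx.1 p (hP hp), hx.2⟩

/-- a good row which is not used, and many cells in it -/
theorem good_row (L : Fin n → Fin n → Fin n) (α β γ : Fin n ≃ G) (P : Finset (Fin n × Fin n))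
    (D q a : ℕ) (hC : Close L α β γ P D q a) (hPn : 10 * (P.card + q) < n)
    (hD : 10 * D ≤ n) : ∃ x : Fin n, (∀ p ∈ P, p.1 ≠ x) ∧ ∃ Y : Finset (Fin n), n / 2 ≤ Y.card ∧
      ∀ y ∈ Y, (∀ p ∈ P, p.2 ≠ y) ∧ (∀ p ∈ P, L p.1 p.2 ≠ L x y) ∧ Agree L α β γ x y := by
  classical
  have h1 : ∃ x : Fin n, x ∉ P.image (fun p => p.1) ∪
      (univ.filter fun x => (∀ p ∈ P, p.1 ≠ x) ∧ rowAgr L α β γ x + D < n) := by
    by_contra hcon
    push Not at hcon
    have h2 : (univ : Finset (Fin n)) ⊆ P.image (fun p => p.1) ∪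
      (univ.filter fun x => (∀ p ∈ P, p.1 ≠ x) ∧ rowAgr L α β γ x + D < n) := fun x _ => hcon x
    have h3 := Finset.card_le_card h2
    rw [card_univ, Fintype.card_fin] at h3
    have h4 := Finset.card_union_le (P.image fun p => p.1)
      (univ.filter fun x => (∀ p ∈ P, p.1 ≠ x) ∧ rowAgr L α β γ x + D < n)
    have h5 : (P.image fun p => p.1).card ≤ P.card := Finset.card_image_le
    have h6 := hC.most
    rw [Nat.card_eq_fintype_card (α := {x // (∀ p ∈ P, p.1 ≠ x) ∧ rowAgr L α β γ x + D < n}),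
      Fintype.card_subtype] at h6
    omega
  obtain ⟨x, hx⟩ := h1
  rw [mem_union, not_or] at hx
  obtain ⟨hx0, hx3⟩ := hx
  have hx1 : ∀ p ∈ P, p.1 ≠ x := fun p hp h => hx0 (mem_image.mpr ⟨p, hp, h⟩)
  have hx2 : n ≤ rowAgr L α β γ x + D := by
    by_contra hlt
    exact hx3 (mem_filter.mpr ⟨mem_univ _, hx1, not_le.mp hlt⟩)
  refine ⟨x, hx1, univ.filter fun y => (∀ p ∈ P, p.2 ≠ y) ∧ (∀ p ∈ P, L p.1 p.2 ≠ L x y) ∧
    Agree L α β γ x y, ?_, ?_⟩
  · have h2 : (univ.filter fun y => Agree L α β γ x y) ⊆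
        (univ.filter fun y => (∀ p ∈ P, p.2 ≠ y) ∧ (∀ p ∈ P, L p.1 p.2 ≠ L x y) ∧
          Agree L α β γ x y) ∪ (P.image (fun p => p.2) ∪
          (univ.filter fun y => Agree L α β γ x y ∧ L x y ∈ P.image fun p => L p.1 p.2)) := by
      intro y hy
      simp only [mem_filter, mem_univ, true_and, mem_union, mem_image] at hy ⊢
      by_cases c1 : ∀ p ∈ P, p.2 ≠ y
      · by_cases c2 : ∀ p ∈ P, L p.1 p.2 ≠ L x y
        · exact Or.inl ⟨c1, c2, hy⟩
        · push Not at c2
          exact Or.inr (Or.inr ⟨hy, c2⟩)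
      · push Not at c1
        exact Or.inr (Or.inl c1)
    have h3 : (univ.filter fun y => Agree L α β γ x y ∧
        L x y ∈ P.image fun p => L p.1 p.2).card ≤ P.card := by
      refine le_trans (Finset.card_le_card_of_injOn (fun y => L x y) ?_ ?_)
        (Finset.card_image_le (s := P) (f := fun p => L p.1 p.2))
      · intro y hy
        simp only [coe_filter, mem_univ, true_and, Set.mem_ofPred_eq] at hy
        exact mem_coe.mpr hy.2
      · intro y hy y' hy' h
        simp only [coe_filter, mem_univ, true_and, Set.mem_ofPred_eq] at hy hy' h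
        have e1 := hy.1
        have e2 := hy'.1
        unfold Agree at e1 e2
        rw [h] at e1
        exact β.injective (add_left_cancel (e1.symm.trans e2))
    have h4 := (Finset.card_le_card h2).trans ((Finset.card_union_le _ _).trans
      (Nat.add_le_add le_rfl ((Finset.card_union_le _ _).trans
        (Nat.add_le_add (Finset.card_image_le (s := P) (f := fun p => p.2)) h3))))
    have h5 : (univ.filter fun y => Agree L α β γ x y).card = rowAgr L α β γ x := by
      unfold rowAgr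
      rw [Nat.card_eq_fintype_card, Fintype.card_subtype]
    omega
  · intro y hy
    simpa using hy

end

/-- **Number of transversals.** -/
theorem count : ∃ n₀ : ℕ, ∀ n : ℕ, n₀ ≤ n → Odd n → ∀ (L : Fin n → Fin n → Fin n)
    (G : Type) [AddCommGroup G] (α β γ : Fin n ≃ G) (D q k : ℕ) (P : Finset (Fin n × Fin n)),
    Part L α β γ P → Close L α β γ P D q (2 * P.card + 2 * q + 2 * k) →
    10 ^ 10 * (P.card + q + k) ≤ n → 10 ^ 10 * D ≤ n →
    (n / 2) ^ k ≤ Nat.card {σ : Equiv.Perm (Fin n) //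
      (Function.Bijective fun x => L x (σ x)) ∧ ∀ p ∈ P, σ p.1 = p.2} := by
  classical
  obtain ⟨n₀, hn₀⟩ := arr2
  refine ⟨max n₀ 1, fun n hn hodd L G _ α β γ D q k => ?_⟩
  induction k with
  | zero =>
    intro P hP hC hPn hD
    obtain ⟨Φ, h1, h2, -⟩ := hn₀ n (le_trans (le_max_left _ _) hn) hodd L G α β γ P hP D q 0
      (hC.mono (Subset.refl _) (by omega)) (by omega) (by omega)
    rw [pow_zero]
    exact Nat.card_pos_iff.mpr ⟨⟨⟨Φ 0, h1 0, h2 0⟩⟩, inferInstance⟩
  | succ k ih =>
    intro P hP hC hPn hD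
    have hn1 : 1 ≤ n := le_trans (le_max_right _ _) hn
    obtain ⟨x, hx, Y, hY, hYc⟩ := good_row L α β γ P D q _ hC (by omega) (by omega)
    have step : ∀ y ∈ Y, (n / 2) ^ k ≤ (univ.filter fun σ : Equiv.Perm (Fin n) =>
        ((Function.Bijective fun x => L x (σ x)) ∧ ∀ p ∈ P, σ p.1 = p.2) ∧ σ x = y).card := by
      intro y hy
      obtain ⟨a1, a2, a3⟩ := hYc y hy
      obtain ⟨b1, b2⟩ := hP.insert hx a1 a2 a3
      have b3 := ih (insert (x, y) P) b1 (hC.mono (subset_insert _ _) (by omega)) (by omega) hD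
      refine le_trans b3 ?_
      rw [Nat.card_eq_fintype_card, Fintype.card_subtype]
      apply Finset.card_le_card
      intro σ hσ
      simp only [mem_filter, mem_univ, true_and] at hσ ⊢
      refine ⟨⟨hσ.1, fun p hp => hσ.2 p (mem_insert_of_mem hp)⟩, ?_⟩
      exact hσ.2 (x, y) (mem_insert_self _ _)
    have h1 : (univ.filter fun σ : Equiv.Perm (Fin n) =>
        ((Function.Bijective fun x => L x (σ x)) ∧ ∀ p ∈ P, σ p.1 = p.2) ∧ σ x ∈ Y).card =
        ∑ y ∈ Y, (univ.filter fun σ : Equiv.Perm (Fin n) =>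
        ((Function.Bijective fun x => L x (σ x)) ∧ ∀ p ∈ P, σ p.1 = p.2) ∧ σ x = y).card := by
      rw [Finset.card_eq_sum_card_fiberwise (f := fun σ : Equiv.Perm (Fin n) => σ x) (t := Y)]
      · apply Finset.sum_congr rfl
        intro y hy
        congr 1
        ext σ
        simp only [mem_filter, mem_univ, true_and]
        constructor
        · rintro ⟨⟨h, _⟩, h2⟩
          exact ⟨h, h2⟩
        · rintro ⟨h, h2⟩
          exact ⟨⟨h, by rw [h2]; exact hy⟩, h2⟩
      · intro σ hσ
        simp only [coe_filter, mem_univ, true_and, Set.mem_ofPred_eq] at hσ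
        exact mem_coe.mpr hσ.2
    rw [Nat.card_eq_fintype_card, Fintype.card_subtype]
    calc (n / 2) ^ (k + 1) ≤ Y.card * (n / 2) ^ k := by
          rw [pow_succ, mul_comm]; exact Nat.mul_le_mul_right _ hY
      _ ≤ ∑ y ∈ Y, (univ.filter fun σ : Equiv.Perm (Fin n) =>
        ((Function.Bijective fun x => L x (σ x)) ∧ ∀ p ∈ P, σ p.1 = p.2) ∧ σ x = y).card := by
          rw [← smul_eq_mul]
          exact Finset.card_nsmul_le_sum _ _ _ step
      _ = _ := h1.symm
      _ ≤ _ := by
          apply Finset.card_le_card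
          intro σ hσ
          simp only [mem_filter, mem_univ, true_and] at hσ ⊢
          exact hσ.1

end Pool.Agent.Q131.NA
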