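import Pool.Agent.Q131.NA.Many

set_option autoImplicit false

namespace Pool.Agent.Q131.NA

open Finset

section
variable {G : Type} [AddCommGroup G] [Fintype G] [DecidableEq G]

theorem State.insert {R C S : Finset G} {B P : Finset (G × G)} (h : State R C S B P) {x y : G}
    (hx : x ∈ R) (hy : y ∈ C) (hs : x + y ∈ S) (hB : (x, y) ∉ B)
    (hx' : x ∉ P.image Prod.fst) (hy' : y ∉ P.image Prod.snd)
    (hs' : x + y ∉ P.image fun p => p.1 + p.2) :
    State R C S B (insert (x, y) P) ∧ (insert (x, y) P).card = P.card + 1 := by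
  have hx2 : ∀ p ∈ P, p.1 ≠ x := fun p hp e => hx' (mem_image.mpr ⟨p, hp, e⟩)
  have hy2 : ∀ p ∈ P, p.2 ≠ y := fun p hp e => hy' (mem_image.mpr ⟨p, hp, e⟩)
  have hs2 : ∀ p ∈ P, p.1 + p.2 ≠ x + y := fun p hp e => hs' (mem_image.mpr ⟨p, hp, e⟩)
  refine ⟨⟨⟨?_, ?_, ?_⟩, ?_, ?_, ?_, ?_⟩, ?_⟩
  · intro p hp q hq hpq
    simp only [coe_insert, Set.mem_insert_iff, mem_coe] at hp hq hpq
    rcases hp with rfl | hp <;> rcases hq with rfl | hq
    · rfl
    · exact absurd hpq.symm (hx2 q hq)
    · exact absurd hpq (hx2 p hp)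
    · exact h.pt.row hp hq hpq
  · intro p hp q hq hpq
    simp only [coe_insert, Set.mem_insert_iff, mem_coe] at hp hq hpq
    rcases hp with rfl | hp <;> rcases hq with rfl | hq
    · rfl
    · exact absurd hpq.symm (hy2 q hq)
    · exact absurd hpq (hy2 p hp)
    · exact h.pt.col hp hq hpq
  · intro p hp q hq hpq
    simp only [coe_insert, Set.mem_insert_iff, mem_coe] at hp hq hpq
    rcases hp with rfl | hp <;> rcases hq with rfl | hq
    · rfl
    · exact absurd hpq.symm (hs2 q hq)
    · exact absurd hpq (hs2 p hp)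
    · exact h.pt.sym hp hq hpq
  · intro p hp
    rcases mem_insert.mp hp with rfl | hp
    · exact hx
    · exact h.row p hp
  · intro p hp
    rcases mem_insert.mp hp with rfl | hp
    · exact hy
    · exact h.col p hp
  · intro p hp
    rcases mem_insert.mp hp with rfl | hp
    · exact hs
    · exact h.sym p hp
  · intro p hp
    rcases mem_insert.mp hp with rfl | hp
    · exact hB
    · exact h.out p hp
  · rw [card_insert_of_notMem]
    intro hp
    exact hx2 _ hp rfl

/-- one can choose an element outside four small sets, pulled back by injections -/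
theorem choose_one (A : Finset G) (f g : G → G) (hf : Function.Injective f)
    (hg : Function.Injective g) (V W V' W' : Finset G) (m Q : ℕ) (hV : (Vᶜ).card ≤ m)
    (hW : (Wᶜ).card ≤ m) (hV' : V'.card ≤ Q) (hW' : W'.card ≤ Q) (hA : 2 * m + 2 * Q < A.card) :
    ∃ a ∈ A, f a ∈ V ∧ g a ∈ W ∧ f a ∉ V' ∧ g a ∉ W' := by
  by_contra hcon
  push Not at hcon
  have h1 : A ⊆ (univ.filter fun a => f a ∈ Vᶜ) ∪ ((univ.filter fun a => g a ∈ Wᶜ) ∪
      ((univ.filter fun a => f a ∈ V') ∪ (univ.filter fun a => g a ∈ W'))) := by
    intro a ha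
    simp only [mem_union, mem_filter, mem_univ, true_and, mem_compl]
    by_contra hc
    push Not at hc
    exact hc.2.2.2 (hcon a ha hc.1 hc.2.1 hc.2.2.1)
  have key : ∀ (φ : G → G) (_ : Function.Injective φ) (X : Finset G),
      (univ.filter fun a => φ a ∈ X).card ≤ X.card := by
    intro φ hφ X
    refine Finset.card_le_card_of_injOn φ ?_ hφ.injOn
    intro a ha
    simpa using ha
  have h2 := (Finset.card_le_card h1).trans ((Finset.card_union_le _ _).trans
    (Nat.add_le_add (key f hf _) ((Finset.card_union_le _ _).trans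
      (Nat.add_le_add (key g hg _) ((Finset.card_union_le _ _).trans
        (Nat.add_le_add (key f hf _) (key g hg _)))))))
  omega

theorem cover (R C S : Finset G) (B : Finset (G × G)) (X Y Z : Finset G) (hX : X ⊆ R) (hY : Y ⊆ C)
    (hZ : Z ⊆ S) (m Q : ℕ) (hR : (Rᶜ).card ≤ m) (hC : (Cᶜ).card ≤ m) (hS : (Sᶜ).card ≤ m)
    (hrow : ∀ x ∈ X, 2 * m + 2 * Q < (univ.filter fun y => (x, y) ∉ B).card)
    (hcol : ∀ y ∈ Y, 2 * m + 2 * Q < (univ.filter fun x => (x, y) ∉ B).card)
    (hsym : ∀ s ∈ Z, 2 * m + 2 * Q < (univ.filter fun x => (x, s - x) ∉ B).card) :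
    ∀ (k : ℕ) (P : Finset (G × G)), State R C S B P →
      (X \ P.image Prod.fst).card + (Y \ P.image Prod.snd).card +
        (Z \ P.image fun p => p.1 + p.2).card ≤ k → P.card + k ≤ Q →
      ∃ P' : Finset (G × G), P ⊆ P' ∧ State R C S B P' ∧ P'.card ≤ Q ∧ X ⊆ P'.image Prod.fst ∧
        Y ⊆ P'.image Prod.snd ∧ Z ⊆ P'.image fun p => p.1 + p.2 := by
  intro k
  induction k with
  | zero =>
    intro P hP hk hQ
    refine ⟨P, Subset.refl _, hP, by omega, ?_, ?_, ?_⟩
    · rw [← Finset.sdiff_eq_empty_iff_subset, ← Finset.card_eq_zero]; omega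
    · rw [← Finset.sdiff_eq_empty_iff_subset, ← Finset.card_eq_zero]; omega
    · rw [← Finset.sdiff_eq_empty_iff_subset, ← Finset.card_eq_zero]; omega
  | succ k ih =>
    intro P hP hk hQ
    have c1 : (P.image Prod.fst).card ≤ Q := by
      have := Finset.card_image_le (s := P) (f := Prod.fst); omega
    have c2 : (P.image Prod.snd).card ≤ Q := by
      have := Finset.card_image_le (s := P) (f := Prod.snd); omega
    have c3 : (P.image fun p => p.1 + p.2).card ≤ Q := by
      have := Finset.card_image_le (s := P) (f := fun p : G × G => p.1 + p.2); omega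
    -- it suffices to add a cell which covers a new element
    have fin : ∀ x y : G, State R C S B (insert (x, y) P) → (insert (x, y) P).card = P.card + 1 →
        ((x ∈ X \ P.image Prod.fst) ∨ (y ∈ Y \ P.image Prod.snd) ∨
          (x + y ∈ Z \ P.image fun p => p.1 + p.2)) →
        ∃ P' : Finset (G × G), P ⊆ P' ∧ State R C S B P' ∧ P'.card ≤ Q ∧ X ⊆ P'.image Prod.fst ∧
          Y ⊆ P'.image Prod.snd ∧ Z ⊆ P'.image fun p => p.1 + p.2 := by
      intro x y hst hc hor
      have s1 : X \ (insert (x, y) P).image Prod.fst ⊆ X \ P.image Prod.fst :=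
        Finset.sdiff_subset_sdiff (Subset.refl _) (Finset.image_subset_image (subset_insert _ _))
      have s2 : Y \ (insert (x, y) P).image Prod.snd ⊆ Y \ P.image Prod.snd :=
        Finset.sdiff_subset_sdiff (Subset.refl _) (Finset.image_subset_image (subset_insert _ _))
      have s3 : Z \ ((insert (x, y) P).image fun p => p.1 + p.2) ⊆
          Z \ P.image fun p => p.1 + p.2 :=
        Finset.sdiff_subset_sdiff (Subset.refl _) (Finset.image_subset_image (subset_insert _ _))
      have t1 := Finset.card_le_card s1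
      have t2 := Finset.card_le_card s2
      have t3 := Finset.card_le_card s3
      have hlt : (X \ (insert (x, y) P).image Prod.fst).card +
          (Y \ (insert (x, y) P).image Prod.snd).card +
          (Z \ (insert (x, y) P).image fun p => p.1 + p.2).card <
          (X \ P.image Prod.fst).card + (Y \ P.image Prod.snd).card +
          (Z \ P.image fun p => p.1 + p.2).card := by
        rcases hor with h | h | h
        · have : (X \ (insert (x, y) P).image Prod.fst).card < (X \ P.image Prod.fst).card := by
            apply Finset.card_lt_card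
            refine (Finset.ssubset_iff_of_subset s1).mpr ⟨x, h, ?_⟩
            simp
          omega
        · have : (Y \ (insert (x, y) P).image Prod.snd).card < (Y \ P.image Prod.snd).card := by
            apply Finset.card_lt_card
            refine (Finset.ssubset_iff_of_subset s2).mpr ⟨y, h, ?_⟩
            simp
          omega
        · have : (Z \ (insert (x, y) P).image fun p => p.1 + p.2).card <
              (Z \ P.image fun p => p.1 + p.2).card := by
            apply Finset.card_lt_card
            refine (Finset.ssubset_iff_of_subset s3).mpr ⟨x + y, h, ?_⟩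
            simp
          omega
      obtain ⟨P', hPP', h⟩ := ih (insert (x, y) P) hst (by omega) (by omega)
      exact ⟨P', (subset_insert _ _).trans hPP', h⟩
    by_cases e1 : (X \ P.image Prod.fst).Nonempty
    · obtain ⟨x, hx⟩ := e1
      rw [mem_sdiff] at hx
      obtain ⟨y, hy, h1, h2, h3, h4⟩ := choose_one (univ.filter fun y => (x, y) ∉ B) (fun y => y)
        (fun y => x + y) (fun _ _ h => h) (add_right_injective x) C S (P.image Prod.snd)
        (P.image fun p => p.1 + p.2) m Q hC hS c2 c3 (hrow x hx.1)
      rw [mem_filter] at hy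
      obtain ⟨h5, h6⟩ := hP.insert (hX hx.1) h1 h2 hy.2 hx.2 h3 h4
      exact fin x y h5 h6 (Or.inl (mem_sdiff.mpr hx))
    · by_cases e2 : (Y \ P.image Prod.snd).Nonempty
      · obtain ⟨y, hx⟩ := e2
        rw [mem_sdiff] at hx
        obtain ⟨x, hy, h1, h2, h3, h4⟩ := choose_one (univ.filter fun x => (x, y) ∉ B)
          (fun x => x) (fun x => x + y) (fun _ _ h => h) (add_left_injective y) R S
          (P.image Prod.fst) (P.image fun p => p.1 + p.2) m Q hR hS c1 c3 (hcol y hx.1)
        rw [mem_filter] at hy
        obtain ⟨h5, h6⟩ := hP.insert h1 (hY hx.1) h2 hy.2 h3 hx.2 h4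
        exact fin x y h5 h6 (Or.inr (Or.inl (mem_sdiff.mpr hx)))
      · by_cases e3 : (Z \ P.image fun p => p.1 + p.2).Nonempty
        · obtain ⟨s, hx⟩ := e3
          rw [mem_sdiff] at hx
          obtain ⟨x, hy, h1, h2, h3, h4⟩ := choose_one (univ.filter fun x => (x, s - x) ∉ B)
            (fun x => x) (fun x => s - x) (fun _ _ h => h) (sub_right_injective) R C
            (P.image Prod.fst) (P.image Prod.snd) m Q hR hC c1 c2 (hsym s hx.1)
          rw [mem_filter] at hy
          have e : x + (s - x) = s := by abel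
          obtain ⟨h5, h6⟩ := hP.insert h1 h2 (by rw [e]; exact hZ hx.1) hy.2 h3 h4
            (by rw [e]; exact hx.2)
          exact fin x (s - x) h5 h6 (Or.inr (Or.inr (by rw [e]; exact mem_sdiff.mpr hx)))
        · refine ⟨P, Subset.refl _, hP, by omega, ?_, ?_, ?_⟩
          · rw [← Finset.sdiff_eq_empty_iff_subset]
            exact Finset.not_nonempty_iff_eq_empty.mp e1
          · rw [← Finset.sdiff_eq_empty_iff_subset]
            exact Finset.not_nonempty_iff_eq_empty.mp e2
          · rw [← Finset.sdiff_eq_empty_iff_subset]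
            exact Finset.not_nonempty_iff_eq_empty.mp e3

end

end Pool.Agent.Q131.NA
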