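import Mathlib

set_option autoImplicit false

/-!
Transversals of the addition table of an abelian group `G` of odd order, robust form: definitions
and statements of the lemmas.

Cells are pairs `(x, y)` (row, column), the symbol is `x + y`, and `z = -(x + y)`.  The three lines
of cells `(t, t)`, `(-2t, t)`, `(t, -2t)` are `cell 0 t`, `cell 1 t`, `cell 2 t`.
-/

namespace Pool.Agent.Q131.NA

open Finset

/-- the cell of type `i` with parameter `t` -/
def cell {G : Type} [AddCommGroup G] (i : Fin 3) (t : G) : G × G :=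
  match i with
  | 0 => (t, t)
  | 1 => (-(t + t), t)
  | 2 => (t, -(t + t))

/-- partial transversals of the addition table -/
structure PT {G : Type} [AddCommGroup G] (T : Finset (G × G)) : Prop where
  row : Set.InjOn (fun p : G × G => p.1) (T : Set (G × G))
  col : Set.InjOn (fun p : G × G => p.2) (T : Set (G × G))
  sym : Set.InjOn (fun p : G × G => p.1 + p.2) (T : Set (G × G))

/-- the six cells on the lines removed in a move -/
def oldc {G : Type} [AddCommGroup G] [DecidableEq G] (r c x s : G) : Finset (G × G) :=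
  {cell 0 x, cell 0 (r + c - x), cell 1 s, cell 1 (-r - s), cell 2 (-x - s), cell 2 (x + s - c)}

/-- the six new cells of a move -/
def newc {G : Type} [AddCommGroup G] [DecidableEq G] (r c x s : G) : Finset (G × G) :=
  {(-x - s, x), (-(s + s), (x + s) + (x + s)), (r + c - x, -r - s),
    ((r + s) + (r + s), -((x + s - c) + (x + s - c))), (r, s), (x + s - c, c)}

/-- **Move.**  The row `r` and the column `c` are not used by `T`, the six line cells are in `T`
and have different parameters.  Then the six cells can be replaced by the six new cells: the row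
`r` and the column `c` become covered, the row `x` and the column `r + c - x` uncovered. -/
def S_move : Prop :=
  ∀ (G : Type) [AddCommGroup G] [DecidableEq G] (T : Finset (G × G)) (r c x s : G), PT T →
    (∀ p ∈ T, p.1 ≠ r) → (∀ p ∈ T, p.2 ≠ c) → oldc r c x s ⊆ T →
    [x, r + c - x, s, -r - s, -x - s, x + s - c].Nodup →
    PT ((T \ oldc r c x s) ∪ newc r c x s) ∧
    ((T \ oldc r c x s) ∪ newc r c x s).card = T.card ∧
    ((T \ oldc r c x s) ∪ newc r c x s).image (fun p => p.1) =
      insert r ((T.image fun p => p.1).erase x) ∧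
    ((T \ oldc r c x s) ∪ newc r c x s).image (fun p => p.2) =
      insert c ((T.image fun p => p.2).erase (r + c - x)) ∧
    ((T \ oldc r c x s) ∪ newc r c x s).image (fun p => p.1 + p.2) =
      T.image (fun p => p.1 + p.2)

/-- **Segments.**  The orbits of a permutation are cut, at few points, into pieces of bounded
size; `lab` gives the piece. -/
def S_seg : Prop :=
  ∀ (V : Type) [Fintype V] [DecidableEq V] (g : Equiv.Perm V) (K : ℕ), 1 ≤ K →
    ∃ (C : Finset V) (lab : V → V), K * C.card ≤ Fintype.card V ∧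
      (∀ t, t ∉ C → g t ∉ C → lab (g t) = lab t) ∧
      ∀ v, (univ.filter fun t => t ∉ C ∧ lab t = v).card ≤ 2 * K

/-- **McDiarmid** (lower tail, weak constant) for functions on `V → α`. -/
def S_mcd : Prop :=
  ∀ (V α : Type) [Fintype V] [DecidableEq V] [Fintype α] [DecidableEq α] [Nonempty V] [Nonempty α]
    (f : (V → α) → ℝ) (L t : ℝ), 0 < L → 0 ≤ t →
    (∀ ω v a, |f (Function.update ω v a) - f ω| ≤ L) →
    ((univ.filter fun ω : V → α => f ω ≤ (∑ ω', f ω') / (Fintype.card (V → α) : ℝ) - t).card : ℝ) ≤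
      (Fintype.card (V → α) : ℝ) * Real.exp (-(t ^ 2) / (2 * (Fintype.card V : ℝ) * L ^ 2))

/-- **Patterns.**  A consistent system of `Fintype.card I` prescriptions is satisfied by a
proportion at least `|α| ^ (-|I|)` of all functions. -/
def S_pat : Prop :=
  ∀ (V α I : Type) [Fintype V] [DecidableEq V] [Fintype α] [DecidableEq α] [Fintype I]
    (a : I → V) (τ : I → α), (∀ i j, a i = a j → τ i = τ j) →
    Fintype.card (V → α) ≤
      Fintype.card α ^ Fintype.card I * (univ.filter fun ω : V → α => ∀ i, ω (a i) = τ i).card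

/-- the twelve parameters of a double move; `v = (x, s, s')` -/
def el {G : Type} [AddCommGroup G] (r₁ c₁ r₂ c₂ z : G) (v : G × G × G) : Fin 12 → G :=
  ![v.1, r₁ + c₁ - v.1, v.1 + (r₂ + c₂ + z), -z - v.1,
    v.2.1, -r₁ - v.2.1, v.2.2, -r₂ - v.2.2,
    -v.1 - v.2.1, v.1 + v.2.1 - c₁, -(v.1 + (r₂ + c₂ + z)) - v.2.2,
    v.1 + (r₂ + c₂ + z) + v.2.2 - c₂]

/-- the types of the twelve line cells -/
def ty : Fin 12 → Fin 3 := ![0, 0, 0, 0, 1, 1, 1, 1, 2, 2, 2, 2]

/-- Rich colourings: `κ t = some i` means that the line cell `cell i t` is used. -/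
structure Rich {G : Type} [AddCommGroup G] [Fintype G] [DecidableEq G] (κ : G → Option (Fin 3))
    (K : ℕ) : Prop where
  cf : ∀ t i j, κ t = some i → κ (-(t + t)) = some j → i = j
  few : K * (univ.filter fun t => κ t = none).card ≤ Fintype.card G
  many : ∀ r₁ c₁ r₂ c₂ z : G, Fintype.card G ^ 3 ≤ 4 * 3 ^ 12 *
    (univ.filter fun v : G × G × G => ∀ i, κ (el r₁ c₁ r₂ c₂ z v i) = some (ty i)).card

/-- rich colourings exist -/
def S_rich : Prop :=
  ∀ K : ℕ, 48 ≤ K → ∃ n₀ : ℕ, ∀ (G : Type) [AddCommGroup G] [Fintype G] [DecidableEq G],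
    Odd (Fintype.card G) → n₀ ≤ Fintype.card G → ∃ κ : G → Option (Fin 3), Rich κ K

/-- forbidden cells: at most `D` in each row, column and symbol line -/
structure Sparse {G : Type} [AddCommGroup G] [Fintype G] [DecidableEq G] (B : Finset (G × G))
    (D : ℕ) : Prop where
  row : ∀ x, (univ.filter fun y => (x, y) ∈ B).card ≤ D
  col : ∀ y, (univ.filter fun x => (x, y) ∈ B).card ≤ D
  sym : ∀ s, (univ.filter fun x => (x, s - x) ∈ B).card ≤ D

/-- partial transversals of the part `R × C` of the table with symbols in `S`, outside `B` -/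
structure State {G : Type} [AddCommGroup G] [DecidableEq G] (R C S : Finset G)
    (B T : Finset (G × G)) : Prop where
  pt : PT T
  row : ∀ p ∈ T, p.1 ∈ R
  col : ∀ p ∈ T, p.2 ∈ C
  sym : ∀ p ∈ T, p.1 + p.2 ∈ S
  out : ∀ p ∈ T, p ∉ B

/-- the parameters whose line cell is not in `T` -/
def lost {G : Type} [AddCommGroup G] [Fintype G] [DecidableEq G] (κ : G → Option (Fin 3))
    (T : Finset (G × G)) : Finset G :=
  univ.filter fun t => ∃ i, κ t = some i ∧ cell i t ∉ T

/-- **Step I.**  One uncovered row, column and symbol with `r + c = s`. -/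
def S_step1 : Prop :=
  ∀ (G : Type) [AddCommGroup G] [Fintype G] [DecidableEq G] (κ : G → Option (Fin 3)) (K : ℕ),
    Rich κ K → Odd (Fintype.card G) → ∀ (R C S : Finset G) (B T : Finset (G × G)) (D U : ℕ),
    Sparse B D → State R C S B T → (lost κ T).card ≤ U →
    4 * 3 ^ 12 * (12 * U + 16 + 13 * D) < Fintype.card G →
    ∀ r c s : G, r ∈ R → c ∈ C → s ∈ S → (∀ p ∈ T, p.1 ≠ r) → (∀ p ∈ T, p.2 ≠ c) →
    (∀ p ∈ T, p.1 + p.2 ≠ s) → r + c = s →
    ∃ T' : Finset (G × G), State R C S B T' ∧ T'.card = T.card + 1 ∧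
      (lost κ T').card ≤ U + 12

/-- **Step II.**  Two uncovered rows and columns and one uncovered symbol. -/
def S_step2 : Prop :=
  ∀ (G : Type) [AddCommGroup G] [Fintype G] [DecidableEq G] (κ : G → Option (Fin 3)) (K : ℕ),
    Rich κ K → Odd (Fintype.card G) → ∀ (R C S : Finset G) (B T : Finset (G × G)) (D U : ℕ),
    Sparse B D → State R C S B T → (lost κ T).card ≤ U →
    4 * 3 ^ 12 * (12 * U + 16 + 13 * D) < Fintype.card G →
    ∀ r₁ c₁ r₂ c₂ s : G, r₁ ∈ R → c₁ ∈ C → r₂ ∈ R → c₂ ∈ C → s ∈ S → r₁ ≠ r₂ → c₁ ≠ c₂ →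
    (∀ p ∈ T, p.1 ≠ r₁) → (∀ p ∈ T, p.2 ≠ c₁) → (∀ p ∈ T, p.1 ≠ r₂) → (∀ p ∈ T, p.2 ≠ c₂) →
    (∀ p ∈ T, p.1 + p.2 ≠ s) → r₁ + c₁ ≠ s → r₂ + c₂ ≠ s →
    ∃ T' : Finset (G × G), State R C S B T' ∧ T'.card = T.card + 1 ∧
      (lost κ T').card ≤ U + 12

/-- **Iteration.** -/
def S_iter : Prop :=
  ∀ (G : Type) [AddCommGroup G] [Fintype G] [DecidableEq G] (κ : G → Option (Fin 3)) (K : ℕ),
    Rich κ K → Odd (Fintype.card G) → ∀ (R C S : Finset G) (B T : Finset (G × G)) (D U : ℕ),
    Sparse B D → R.card = C.card → R.card = S.card →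
    ∑ x ∈ R, x + ∑ y ∈ C, y = ∑ s ∈ S, s → State R C S B T → (lost κ T).card ≤ U →
    4 * 3 ^ 12 * (12 * (U + 12 * (R.card - T.card)) + 16 + 13 * D) < Fintype.card G →
    ∃ T' : Finset (G × G), State R C S B T' ∧ T'.card = R.card

/-- **Translation.**  Some translate of `B` has few cells on the three lines. -/
def S_trans : Prop :=
  ∀ (G : Type) [AddCommGroup G] [Fintype G] [DecidableEq G] (B : Finset (G × G)) (D : ℕ),
    Sparse B D → ∃ a b : G,
      (univ.filter fun t => ∃ i : Fin 3, ((cell i t).1 + a, (cell i t).2 + b) ∈ B).card ≤ 3 * D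

/-- **Main theorem.** -/
def S_main : Prop :=
  ∃ n₀ : ℕ, ∀ (G : Type) [AddCommGroup G] [Fintype G] [DecidableEq G],
    Odd (Fintype.card G) → n₀ ≤ Fintype.card G →
    ∀ (R C S : Finset G) (B : Finset (G × G)) (D : ℕ), Sparse B D →
      R.card = C.card → R.card = S.card →
      ∑ x ∈ R, x + ∑ y ∈ C, y = ∑ s ∈ S, s →
      10 ^ 10 * (Fintype.card G - R.card) ≤ Fintype.card G → 10 ^ 10 * D ≤ Fintype.card G →
      ∃ T : Finset (G × G), State R C S B T ∧ T.card = R.card

end Pool.Agent.Q131.NA
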