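import Pool.Agent.Q131.NA.Cnt

set_option autoImplicit false

namespace Pool.Agent.Q131.NA

open Finset

/-- does the `i`-th element depend on the variable `k`? -/
def dep : Fin 12 → Fin 3 → Bool :=
  ![![true, false, false], ![true, false, false], ![true, false, false], ![true, false, false],
    ![false, true, false], ![false, true, false], ![false, false, true], ![false, false, true],
    ![true, true, false], ![true, true, false], ![true, false, true], ![true, false, true]]

variable {G : Type} [AddCommGroup G]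

theorem el_inj (r₁ c₁ r₂ c₂ z : G) (v : G × G × G) (i : Fin 12) (k : Fin 3)
    (h : dep i k = true) : Function.Injective fun a => el r₁ c₁ r₂ c₂ z (put k a v) i := by
  intro a b hab
  fin_cases i <;> fin_cases k <;> simp [dep] at h <;> simpa [el, put] using hab

theorem el_const (r₁ c₁ r₂ c₂ z : G) (v : G × G × G) (i : Fin 12) (k : Fin 3)
    (h : dep i k = false) (a b : G) :
    el r₁ c₁ r₂ c₂ z (put k a v) i = el r₁ c₁ r₂ c₂ z (put k b v) i := by
  fin_cases i <;> fin_cases k <;> simp [dep] at h <;> simp [el, put]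

theorem dep_some (i : Fin 12) : ∃ k, dep i k = true := by
  revert i; decide

theorem dep_pair (i j : Fin 12) (h : ty i ≠ ty j) :
    ∃ k, (dep i k = true ∧ dep j k = false) ∨ (dep j k = true ∧ dep i k = false) := by
  revert i j; decide

variable [Fintype G] [DecidableEq G]

/-- the number of vectors whose `i`-th element is in a given set -/
theorem cnt_mem (r₁ c₁ r₂ c₂ z : G) (i : Fin 12) (A : Finset G) :
    (univ.filter fun v : G × G × G => el r₁ c₁ r₂ c₂ z v i ∈ A).card ≤
      A.card * Fintype.card G ^ 2 := by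
  obtain ⟨k, hk⟩ := dep_some i
  refine cnt k _ _ fun v => ?_
  refine Finset.card_le_card_of_injOn (fun a => el r₁ c₁ r₂ c₂ z (put k a v) i) ?_ ?_
  · intro a ha
    simpa using ha
  · exact (el_inj r₁ c₁ r₂ c₂ z v i k hk).injOn

/-- collisions of labels of elements of different types -/
theorem cnt_lab (r₁ c₁ r₂ c₂ z : G) (i j : Fin 12) (h : ty i ≠ ty j) (C : Finset G) (lab : G → G)
    (m : ℕ) (hm : ∀ u, (univ.filter fun t => t ∉ C ∧ lab t = u).card ≤ m) :
    (univ.filter fun v : G × G × G => el r₁ c₁ r₂ c₂ z v i ∉ C ∧ el r₁ c₁ r₂ c₂ z v j ∉ C ∧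
      lab (el r₁ c₁ r₂ c₂ z v i) = lab (el r₁ c₁ r₂ c₂ z v j)).card ≤ m * Fintype.card G ^ 2 := by
  obtain ⟨k, ⟨h1, h2⟩ | ⟨h1, h2⟩⟩ := dep_pair i j h
  · refine cnt k _ _ fun v => ?_
    refine le_trans ?_ (hm (lab (el r₁ c₁ r₂ c₂ z (put k 0 v) j)))
    refine Finset.card_le_card_of_injOn (fun a => el r₁ c₁ r₂ c₂ z (put k a v) i) ?_ ?_
    · intro a ha
      simp only [coe_filter, mem_univ, true_and, Set.mem_ofPred_eq] at ha ⊢
      exact ⟨ha.1, by rw [ha.2.2, el_const r₁ c₁ r₂ c₂ z v j k h2 a 0]⟩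
    · exact (el_inj r₁ c₁ r₂ c₂ z v i k h1).injOn
  · refine cnt k _ _ fun v => ?_
    refine le_trans ?_ (hm (lab (el r₁ c₁ r₂ c₂ z (put k 0 v) i)))
    refine Finset.card_le_card_of_injOn (fun a => el r₁ c₁ r₂ c₂ z (put k a v) j) ?_ ?_
    · intro a ha
      simp only [coe_filter, mem_univ, true_and, Set.mem_ofPred_eq] at ha ⊢
      exact ⟨ha.2.1, by rw [← ha.2.2, el_const r₁ c₁ r₂ c₂ z v i k h2 a 0]⟩
    · exact (el_inj r₁ c₁ r₂ c₂ z v j k h1).injOn

end Pool.Agent.Q131.NA
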