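import Pool.Agent.Q131.NA.Main
import Pool.Agent.Q211.NA.Move
import Pool.Agent.Q211.NA.Seg
import Pool.Agent.Q211.NA.Step1
import Pool.Agent.Q211.NA.Iter
import Pool.Agent.Q190.NA.Mcd
import Pool.Agent.Q190.NA.Pat
import Pool.Agent.Q230.NA7

set_option autoImplicit false

namespace Pool.Agent.Q131.NA

theorem main_thm : S_main :=
  main (Pool.Agent.Q211.NA.iter (Pool.Agent.Q211.NA.step1 Pool.Agent.Q211.NA.move)
    (Pool.Agent.Q230.NA7.step2 Pool.Agent.Q211.NA.move))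
    (rich Pool.Agent.Q211.NA.seg Pool.Agent.Q190.NA.mcd Pool.Agent.Q190.NA.pat)
    Pool.Agent.Q190.NA.trans

end Pool.Agent.Q131.NA
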