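import Pool.Agent.Q131.NA.Rich

set_option autoImplicit false

namespace Pool.Agent.Q131.NA

open Finset

section
variable {G : Type} [AddCommGroup G]

theorem cell_inj (i j : Fin 3) (t t' : G) (h : cell i t = cell j t') : t = t' := by
  have h1 := congrArg Prod.fst h
  have h2 := congrArg Prod.snd h
  fin_cases i <;> fin_cases j <;> simp only [cell] at h1 h2 <;>
    first
    | exact h1
    | exact h2
    | (have e1 : -(t + t) + t = -t := by abel
       have e2 : t' + -(t' + t') = -t' := by abel
       have e3 := congrArg₂ (· + ·) h1 h2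
       simp only [e1, e2] at e3
       exact neg_injective e3)
    | (have e1 : t + -(t + t) = -t := by abel
       have e2 : -(t' + t') + t' = -t' := by abel
       have e3 := congrArg₂ (· + ·) h1 h2
       simp only [e1, e2] at e3
       exact neg_injective e3)

theorem cell_row (κ : G → Option (Fin 3)) (hcf : ∀ t i j, κ t = some i → κ (-(t + t)) = some j → i = j)
    (i j : Fin 3) (t t' : G) (hi : κ t = some i) (hj : κ t' = some j)
    (h2 : Function.Injective fun t : G => t + t)
    (h : (cell i t).1 = (cell j t').1) : t = t' := by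
  have key : ∀ (i j : Fin 3) (t t' : G), κ t = some i → κ t' = some j → t = -(t' + t') →
      i = j := by
    intro i j t t' hi hj e
    rw [e] at hi
    exact (hcf t' j i hj hi).symm
  fin_cases i <;> fin_cases j <;> simp only [cell] at h
  · exact h
  · exact absurd (key _ _ t t' hi hj h) (by decide)
  · exact h
  · exact absurd (key _ _ t' t hj hi h.symm) (by decide)
  · exact h2 (neg_injective h)
  · exact absurd (key _ _ t' t hj hi h.symm) (by decide)
  · exact h
  · exact absurd (key _ _ t t' hi hj h) (by decide)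
  · exact h

theorem cell_col (κ : G → Option (Fin 3)) (hcf : ∀ t i j, κ t = some i → κ (-(t + t)) = some j → i = j)
    (i j : Fin 3) (t t' : G) (hi : κ t = some i) (hj : κ t' = some j)
    (h2 : Function.Injective fun t : G => t + t)
    (h : (cell i t).2 = (cell j t').2) : t = t' := by
  have key : ∀ (i j : Fin 3) (t t' : G), κ t = some i → κ t' = some j → t = -(t' + t') →
      i = j := by
    intro i j t t' hi hj e
    rw [e] at hi
    exact (hcf t' j i hj hi).symm
  fin_cases i <;> fin_cases j <;> simp only [cell] at h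
  · exact h
  · exact h
  · exact absurd (key _ _ t t' hi hj h) (by decide)
  · exact h
  · exact h
  · exact absurd (key _ _ t t' hi hj h) (by decide)
  · exact absurd (key _ _ t' t hj hi h.symm) (by decide)
  · exact absurd (key _ _ t' t hj hi h.symm) (by decide)
  · exact h2 (neg_injective h)

theorem cell_sym (κ : G → Option (Fin 3)) (hcf : ∀ t i j, κ t = some i → κ (-(t + t)) = some j → i = j)
    (i j : Fin 3) (t t' : G) (hi : κ t = some i) (hj : κ t' = some j)
    (h2 : Function.Injective fun t : G => t + t)
    (h : (cell i t).1 + (cell i t).2 = (cell j t').1 + (cell j t').2) : t = t' := by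
  have key : ∀ (i j : Fin 3) (t t' : G), κ t = some i → κ t' = some j → t = -(t' + t') →
      i = j := by
    intro i j t t' hi hj e
    rw [e] at hi
    exact (hcf t' j i hj hi).symm
  have e1 : ∀ t : G, -(t + t) + t = -t := fun t => by abel
  have e2 : ∀ t : G, t + -(t + t) = -t := fun t => by abel
  fin_cases i <;> fin_cases j <;> simp only [cell, e1, e2] at h
  · exact h2 h
  · exact absurd (key _ _ t' t hj hi (by rw [h, neg_neg])) (by decide)
  · exact absurd (key _ _ t' t hj hi (by rw [h, neg_neg])) (by decide)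
  · exact absurd (key _ _ t t' hi hj (by rw [← h, neg_neg])) (by decide)
  · exact neg_injective h
  · exact neg_injective h
  · exact absurd (key _ _ t t' hi hj (by rw [← h, neg_neg])) (by decide)
  · exact neg_injective h
  · exact neg_injective h

variable [Fintype G] [DecidableEq G]

/-- the starting partial transversal -/
theorem start (κ : G → Option (Fin 3)) (K : ℕ) (hκ : Rich κ K) (hodd : Odd (Fintype.card G))
    (R C S : Finset G) (B : Finset (G × G)) (M : ℕ)
    (hB : (univ.filter fun t => ∃ i : Fin 3, cell i t ∈ B).card ≤ M)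
    (hRC : R.card = C.card) (hRS : R.card = S.card) :
    ∃ T : Finset (G × G), State R C S B T ∧
      (lost κ T).card ≤ M + 3 * (Fintype.card G - R.card) ∧
      Fintype.card G ≤ T.card + (univ.filter fun t => κ t = none).card +
        (M + 3 * (Fintype.card G - R.card)) := by
  have h2 := (two_bij hodd).injective
  set f : G → G × G := fun t => cell ((κ t).getD 0) t with hf
  set A : Finset G := univ.filter fun t => ∃ i, κ t = some i ∧ cell i t ∉ B ∧
    (cell i t).1 ∈ R ∧ (cell i t).2 ∈ C ∧ (cell i t).1 + (cell i t).2 ∈ S with hA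
  have hfi : ∀ t i, κ t = some i → f t = cell i t := by
    intro t i h
    simp only [hf, h, Option.getD_some]
  have hTA : ∀ p ∈ A.image f, ∃ t i, κ t = some i ∧ p = cell i t ∧ cell i t ∉ B ∧
      (cell i t).1 ∈ R ∧ (cell i t).2 ∈ C ∧ (cell i t).1 + (cell i t).2 ∈ S := by
    intro p hp
    obtain ⟨t, ht, rfl⟩ := mem_image.mp hp
    rw [hA, mem_filter] at ht
    obtain ⟨i, hi, h3⟩ := ht.2
    exact ⟨t, i, hi, hfi t i hi, h3⟩
  have hst : State R C S B (A.image f) := by
    refine ⟨⟨?_, ?_, ?_⟩, ?_, ?_, ?_, ?_⟩
    · intro p hp q hq hpq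
      obtain ⟨t, i, hi, rfl, -⟩ := hTA p hp
      obtain ⟨t', j, hj, rfl, -⟩ := hTA q hq
      have h3 := cell_row κ hκ.cf i j t t' hi hj h2 hpq
      subst h3
      rw [hi] at hj
      rw [Option.some.inj hj]
    · intro p hp q hq hpq
      obtain ⟨t, i, hi, rfl, -⟩ := hTA p hp
      obtain ⟨t', j, hj, rfl, -⟩ := hTA q hq
      have h3 := cell_col κ hκ.cf i j t t' hi hj h2 hpq
      subst h3
      rw [hi] at hj
      rw [Option.some.inj hj]
    · intro p hp q hq hpq
      obtain ⟨t, i, hi, rfl, -⟩ := hTA p hp
      obtain ⟨t', j, hj, rfl, -⟩ := hTA q hq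
      have h3 := cell_sym κ hκ.cf i j t t' hi hj h2 hpq
      subst h3
      rw [hi] at hj
      rw [Option.some.inj hj]
    · intro p hp
      obtain ⟨t, i, hi, rfl, h3⟩ := hTA p hp
      exact h3.2.1
    · intro p hp
      obtain ⟨t, i, hi, rfl, h3⟩ := hTA p hp
      exact h3.2.2.1
    · intro p hp
      obtain ⟨t, i, hi, rfl, h3⟩ := hTA p hp
      exact h3.2.2.2
    · intro p hp
      obtain ⟨t, i, hi, rfl, h3⟩ := hTA p hp
      exact h3.1
  set N : Finset G := univ.filter fun t => κ t = none with hN
  set Bd : Finset G := univ.filter fun t => (∃ i, κ t = some i) ∧ t ∉ A with hBd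
  have hbad : Bd.card ≤ M + 3 * (Fintype.card G - R.card) := by
    have hcov : Bd ⊆ (univ.filter fun t => ∃ i : Fin 3, cell i t ∈ B) ∪
        ((univ.filter fun t => ∃ i, κ t = some i ∧ (cell i t).1 ∉ R) ∪
        ((univ.filter fun t => ∃ i, κ t = some i ∧ (cell i t).2 ∉ C) ∪
        (univ.filter fun t => ∃ i, κ t = some i ∧ (cell i t).1 + (cell i t).2 ∉ S))) := by
      intro t ht
      rw [hBd, mem_filter] at ht
      obtain ⟨-, ⟨i, hi⟩, h3⟩ := ht
      simp only [mem_union, mem_filter, mem_univ, true_and]
      by_contra hc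
      push Not at hc
      apply h3
      rw [hA, mem_filter]
      exact ⟨mem_univ _, i, hi, hc.1 i, hc.2.1 i hi, hc.2.2.1 i hi, hc.2.2.2 i hi⟩
    have hr : (univ.filter fun t => ∃ i, κ t = some i ∧ (cell i t).1 ∉ R).card ≤
        Fintype.card G - R.card := by
      rw [← Finset.card_compl]
      refine Finset.card_le_card_of_injOn (fun t => (f t).1) ?_ ?_
      · intro t ht
        simp only [coe_filter, mem_univ, true_and, Set.mem_ofPred_eq] at ht
        obtain ⟨i, hi, h3⟩ := ht
        simp only [coe_compl, Set.mem_compl_iff, mem_coe]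
        rw [hfi t i hi]
        exact h3
      · intro t ht t' ht' h
        simp only [coe_filter, mem_univ, true_and, Set.mem_ofPred_eq] at ht ht'
        obtain ⟨i, hi, -⟩ := ht
        obtain ⟨j, hj, -⟩ := ht'
        simp only [hfi t i hi, hfi t' j hj] at h
        exact cell_row κ hκ.cf i j t t' hi hj h2 h
    have hc : (univ.filter fun t => ∃ i, κ t = some i ∧ (cell i t).2 ∉ C).card ≤
        Fintype.card G - R.card := by
      rw [hRC, ← Finset.card_compl]
      refine Finset.card_le_card_of_injOn (fun t => (f t).2) ?_ ?_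
      · intro t ht
        simp only [coe_filter, mem_univ, true_and, Set.mem_ofPred_eq] at ht
        obtain ⟨i, hi, h3⟩ := ht
        simp only [coe_compl, Set.mem_compl_iff, mem_coe]
        rw [hfi t i hi]
        exact h3
      · intro t ht t' ht' h
        simp only [coe_filter, mem_univ, true_and, Set.mem_ofPred_eq] at ht ht'
        obtain ⟨i, hi, -⟩ := ht
        obtain ⟨j, hj, -⟩ := ht'
        simp only [hfi t i hi, hfi t' j hj] at h
        exact cell_col κ hκ.cf i j t t' hi hj h2 h
    have hs : (univ.filter fun t => ∃ i, κ t = some i ∧ (cell i t).1 + (cell i t).2 ∉ S).card ≤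
        Fintype.card G - R.card := by
      rw [hRS, ← Finset.card_compl]
      refine Finset.card_le_card_of_injOn (fun t => (f t).1 + (f t).2) ?_ ?_
      · intro t ht
        simp only [coe_filter, mem_univ, true_and, Set.mem_ofPred_eq] at ht
        obtain ⟨i, hi, h3⟩ := ht
        simp only [coe_compl, Set.mem_compl_iff, mem_coe]
        rw [hfi t i hi]
        exact h3
      · intro t ht t' ht' h
        simp only [coe_filter, mem_univ, true_and, Set.mem_ofPred_eq] at ht ht'
        obtain ⟨i, hi, -⟩ := ht
        obtain ⟨j, hj, -⟩ := ht'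
        simp only [hfi t i hi, hfi t' j hj] at h
        exact cell_sym κ hκ.cf i j t t' hi hj h2 h
    have h3 := (Finset.card_le_card hcov).trans ((Finset.card_union_le _ _).trans
      (Nat.add_le_add_left ((Finset.card_union_le _ _).trans
        (Nat.add_le_add_left (Finset.card_union_le _ _) _)) _))
    omega
  refine ⟨A.image f, hst, ?_, ?_⟩
  · refine le_trans (Finset.card_le_card ?_) hbad
    intro t ht
    simp only [lost, mem_filter, mem_univ, true_and] at ht
    obtain ⟨i, hi, h3⟩ := ht
    rw [hBd, mem_filter]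
    refine ⟨mem_univ _, ⟨i, hi⟩, fun hA' => h3 ?_⟩
    rw [← hfi t i hi]
    exact mem_image_of_mem f hA'
  · have h3 : (A.image f).card = A.card := by
      apply Finset.card_image_of_injOn
      intro t ht t' ht' h
      rw [hA, mem_coe, mem_filter] at ht ht'
      obtain ⟨-, i, hi, -⟩ := ht
      obtain ⟨-, j, hj, -⟩ := ht'
      rw [hfi t i hi, hfi t' j hj] at h
      exact cell_inj i j t t' h
    rw [h3]
    have h4 : (univ : Finset G) ⊆ A ∪ (N ∪ Bd) := by
      intro t _
      by_cases h5 : t ∈ A
      · exact mem_union_left _ h5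
      · refine mem_union_right _ ?_
        cases h6 : κ t with
        | none =>
          refine mem_union_left _ ?_
          rw [hN, mem_filter]
          exact ⟨mem_univ _, h6⟩
        | some i =>
          refine mem_union_right _ ?_
          rw [hBd, mem_filter]
          exact ⟨mem_univ _, ⟨i, h6⟩, h5⟩
    have h7 := (Finset.card_le_card h4).trans ((Finset.card_union_le _ _).trans
      (Nat.add_le_add_left (Finset.card_union_le _ _) _))
    rw [Finset.card_univ] at h7
    omega

end

theorem main (hiter : S_iter) (hrich : S_rich) (htrans : S_trans) : S_main := by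
  obtain ⟨n₀, hn₀⟩ := hrich (10 ^ 9) (by norm_num)
  refine ⟨max n₀ (10 ^ 9), fun G _ _ _ hodd hn R C S B D hB hRC hRS hsum hR hD => ?_⟩
  obtain ⟨κ, hκ⟩ := hn₀ G hodd (le_trans (le_max_left _ _) hn)
  have hn9 : 10 ^ 9 ≤ Fintype.card G := le_trans (le_max_right _ _) hn
  obtain ⟨a, b, hab⟩ := htrans G B D hB
  set B' : Finset (G × G) := univ.filter fun p => (p.1 + a, p.2 + b) ∈ B with hB'
  have hmem : ∀ p, p ∈ B' ↔ (p.1 + a, p.2 + b) ∈ B := by
    intro p
    rw [hB', mem_filter]
    exact ⟨fun h => h.2, fun h => ⟨mem_univ _, h⟩⟩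
  have hB'S : Sparse B' D := by
    refine ⟨fun x => ?_, fun y => ?_, fun s => ?_⟩
    · refine le_trans (Finset.card_le_card_of_injOn (fun y => y + b) ?_
        (add_left_injective b).injOn) (hB.row (x + a))
      intro y hy
      simp only [coe_filter, mem_univ, true_and, Set.mem_ofPred_eq] at hy ⊢
      exact (hmem _).mp hy
    · refine le_trans (Finset.card_le_card_of_injOn (fun x => x + a) ?_
        (add_left_injective a).injOn) (hB.col (y + b))
      intro x hx
      simp only [coe_filter, mem_univ, true_and, Set.mem_ofPred_eq] at hx ⊢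
      exact (hmem _).mp hx
    · refine le_trans (Finset.card_le_card_of_injOn (fun x => x + a) ?_
        (add_left_injective a).injOn) (hB.sym (s + (a + b)))
      intro x hx
      simp only [coe_filter, mem_univ, true_and, Set.mem_ofPred_eq] at hx ⊢
      have h1 := (hmem _).mp hx
      have h2 : s + (a + b) - (x + a) = s - x + b := by abel
      rw [h2]
      exact h1
  set R' := R.map (Equiv.subRight a).toEmbedding with hR'
  set C' := C.map (Equiv.subRight b).toEmbedding with hC'
  set S' := S.map (Equiv.subRight (a + b)).toEmbedding with hS'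
  have hR'm : ∀ x, x ∈ R' ↔ x + a ∈ R := fun x => by
    rw [hR', mem_map_equiv]; rfl
  have hC'm : ∀ x, x ∈ C' ↔ x + b ∈ C := fun x => by
    rw [hC', mem_map_equiv]; rfl
  have hS'm : ∀ x, x ∈ S' ↔ x + (a + b) ∈ S := fun x => by
    rw [hS', mem_map_equiv]; rfl
  have hR'c : R'.card = R.card := card_map _
  have hC'c : C'.card = C.card := card_map _
  have hS'c : S'.card = S.card := card_map _
  obtain ⟨T₀, hT₀, hU, hT₀n⟩ := start κ (10 ^ 9) hκ hodd R' C' S' B' (3 * D) (by
      refine le_trans (le_of_eq ?_) hab
      congr 1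
      ext t
      simp only [mem_filter, mem_univ, true_and, hmem]) (by omega) (by omega)
  have hsum' : ∑ x ∈ R', x + ∑ y ∈ C', y = ∑ s ∈ S', s := by
    rw [hR', hC', hS', sum_map, sum_map, sum_map]
    simp only [Equiv.coe_toEmbedding, Equiv.subRight_apply, sum_sub_distrib, sum_const]
    rw [← hRC, ← hRS, ← hsum, smul_add]
    abel
  have hfew := hκ.few
  have hRn : R.card ≤ Fintype.card G := Finset.card_le_univ R
  obtain ⟨T', hT', hT'c⟩ := hiter G κ (10 ^ 9) hκ hodd R' C' S' B' T₀ D
    (3 * D + 3 * (Fintype.card G - R'.card)) hB'S (by omega) (by omega) hsum' hT₀ hU (by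
      rw [hR'c] at hT₀n ⊢
      norm_num at hR hD hfew hn9 ⊢
      omega)
  refine ⟨T'.map ((Equiv.addRight a).prodCongr (Equiv.addRight b)).toEmbedding, ?_, ?_⟩
  · have hm : ∀ p, p ∈ T'.map ((Equiv.addRight a).prodCongr (Equiv.addRight b)).toEmbedding →
        ∃ q ∈ T', p = (q.1 + a, q.2 + b) := by
      intro p hp
      obtain ⟨q, hq, rfl⟩ := mem_map.mp hp
      exact ⟨q, hq, rfl⟩
    refine ⟨⟨?_, ?_, ?_⟩, ?_, ?_, ?_, ?_⟩
    · intro p hp q hq hpq
      obtain ⟨p', hp', rfl⟩ := hm p hp
      obtain ⟨q', hq', rfl⟩ := hm q hq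
      have := hT'.pt.row hp' hq' (by simpa using hpq)
      rw [this]
    · intro p hp q hq hpq
      obtain ⟨p', hp', rfl⟩ := hm p hp
      obtain ⟨q', hq', rfl⟩ := hm q hq
      have := hT'.pt.col hp' hq' (by simpa using hpq)
      rw [this]
    · intro p hp q hq hpq
      obtain ⟨p', hp', rfl⟩ := hm p hp
      obtain ⟨q', hq', rfl⟩ := hm q hq
      have := hT'.pt.sym hp' hq' (by
        simp only at hpq ⊢
        have h1 : p'.1 + a + (p'.2 + b) = p'.1 + p'.2 + (a + b) := by abel
        have h2 : q'.1 + a + (q'.2 + b) = q'.1 + q'.2 + (a + b) := by abel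
        rw [h1, h2] at hpq
        exact add_right_cancel hpq)
      rw [this]
    · intro p hp
      obtain ⟨p', hp', rfl⟩ := hm p hp
      exact (hR'm _).mp (hT'.row p' hp')
    · intro p hp
      obtain ⟨p', hp', rfl⟩ := hm p hp
      exact (hC'm _).mp (hT'.col p' hp')
    · intro p hp
      obtain ⟨p', hp', rfl⟩ := hm p hp
      have h1 := (hS'm _).mp (hT'.sym p' hp')
      have h2 : p'.1 + a + (p'.2 + b) = p'.1 + p'.2 + (a + b) := by abel
      simp only [h2]
      exact h1
    · intro p hp
      obtain ⟨p', hp', rfl⟩ := hm p hp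
      exact fun h => hT'.out p' hp' ((hmem _).mpr h)
  · rw [card_map, hT'c, hR'c]

end Pool.Agent.Q131.NA
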