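import Pool.Agent.Q131.NA.Final

set_option autoImplicit false

namespace Pool.Agent.Q131.NA

open Finset

section
variable {G : Type} [AddCommGroup G] [Fintype G] [DecidableEq G]

theorem card_le_one_of_pt_row {T : Finset (G × G)} (hT : PT T) (x : G) :
    (univ.filter fun y => (x, y) ∈ T).card ≤ 1 := by
  rw [Finset.card_le_one]
  intro y hy y' hy'
  simp only [mem_filter, mem_univ, true_and] at hy hy'
  exact (Prod.mk.inj (hT.row (mem_coe.mpr hy) (mem_coe.mpr hy') rfl)).2

theorem card_le_one_of_pt_col {T : Finset (G × G)} (hT : PT T) (y : G) :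
    (univ.filter fun x => (x, y) ∈ T).card ≤ 1 := by
  rw [Finset.card_le_one]
  intro x hx x' hx'
  simp only [mem_filter, mem_univ, true_and] at hx hx'
  exact (Prod.mk.inj (hT.col (mem_coe.mpr hx) (mem_coe.mpr hx') rfl)).1

theorem card_le_one_of_pt_sym {T : Finset (G × G)} (hT : PT T) (s : G) :
    (univ.filter fun x => (x, s - x) ∈ T).card ≤ 1 := by
  rw [Finset.card_le_one]
  intro x hx x' hx'
  simp only [mem_filter, mem_univ, true_and] at hx hx'
  refine (Prod.mk.inj (hT.sym (mem_coe.mpr hx) (mem_coe.mpr hx') ?_)).1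
  simp

theorem Sparse.union {B T : Finset (G × G)} {D : ℕ} (hB : Sparse B D) (hT : PT T) :
    Sparse (B ∪ T) (D + 1) := by
  refine ⟨fun x => ?_, fun y => ?_, fun s => ?_⟩
  · have h : (univ.filter fun y => (x, y) ∈ B ∪ T) =
        (univ.filter fun y => (x, y) ∈ B) ∪ (univ.filter fun y => (x, y) ∈ T) := by
      ext y; simp
    rw [h]
    exact (Finset.card_union_le _ _).trans (Nat.add_le_add (hB.row x) (card_le_one_of_pt_row hT x))
  · have h : (univ.filter fun x => (x, y) ∈ B ∪ T) =
        (univ.filter fun x => (x, y) ∈ B) ∪ (univ.filter fun x => (x, y) ∈ T) := by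
      ext y; simp
    rw [h]
    exact (Finset.card_union_le _ _).trans (Nat.add_le_add (hB.col y) (card_le_one_of_pt_col hT y))
  · have h : (univ.filter fun x => (x, s - x) ∈ B ∪ T) =
        (univ.filter fun x => (x, s - x) ∈ B) ∪ (univ.filter fun x => (x, s - x) ∈ T) := by
      ext y; simp
    rw [h]
    exact (Finset.card_union_le _ _).trans (Nat.add_le_add (hB.sym s) (card_le_one_of_pt_sym hT s))

omit [Fintype G] in
theorem State.anti {R C S : Finset G} {B B' T : Finset (G × G)} (h : State R C S B T)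
    (hB : B' ⊆ B) : State R C S B' T :=
  ⟨h.pt, h.row, h.col, h.sym, fun p hp hpB => h.out p hp (hB hpB)⟩

end

/-- many disjoint transversals -/
theorem many_thm : ∃ n₀ : ℕ, ∀ (G : Type) [AddCommGroup G] [Fintype G] [DecidableEq G],
    Odd (Fintype.card G) → n₀ ≤ Fintype.card G →
    ∀ (R C S : Finset G), R.card = C.card → R.card = S.card →
      ∑ x ∈ R, x + ∑ y ∈ C, y = ∑ s ∈ S, s →
      10 ^ 10 * (Fintype.card G - R.card) ≤ Fintype.card G →
      ∀ (t : ℕ) (B : Finset (G × G)) (D : ℕ), Sparse B D → 10 ^ 10 * (D + t) ≤ Fintype.card G →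
      ∃ T : Fin (t + 1) → Finset (G × G), (∀ i, State R C S B (T i) ∧ (T i).card = R.card) ∧
        ∀ i j, i ≠ j → Disjoint (T i) (T j) := by
  obtain ⟨n₀, hn₀⟩ := main_thm
  refine ⟨n₀, fun G _ _ _ hodd hn R C S hRC hRS hsum hR t => ?_⟩
  induction t with
  | zero =>
    intro B D hB hD
    obtain ⟨T, hT, hTc⟩ := hn₀ G hodd hn R C S B D hB hRC hRS hsum hR (by simpa using hD)
    exact ⟨fun _ => T, fun _ => ⟨hT, hTc⟩, fun i j hij => absurd (Subsingleton.elim (α := Fin 1) i j) hij⟩
  | succ t ih =>
    intro B D hB hD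
    obtain ⟨T, hT, hTc⟩ := hn₀ G hodd hn R C S B D hB hRC hRS hsum hR
      (le_trans (Nat.mul_le_mul_left _ (by omega)) hD)
    obtain ⟨T', hT', hd⟩ := ih (B ∪ T) (D + 1) (hB.union hT.pt)
      (le_trans (Nat.mul_le_mul_left _ (by omega)) hD)
    refine ⟨Fin.cons T T', ?_, ?_⟩
    · intro i
      refine Fin.cases ?_ ?_ i
      · exact ⟨hT, hTc⟩
      · intro i
        simp only [Fin.cons_succ]
        exact ⟨(hT' i).1.anti subset_union_left, (hT' i).2⟩
    · have key : ∀ i, Disjoint T (T' i) := by
        intro i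
        rw [Finset.disjoint_left]
        intro p hp hp'
        exact (hT' i).1.out p hp' (mem_union_right _ hp)
      intro i j
      refine Fin.cases ?_ ?_ i
      · refine Fin.cases ?_ ?_ j
        · intro h; exact absurd rfl h
        · intro j _
          simp only [Fin.cons_zero, Fin.cons_succ]
          exact key j
      · intro i
        refine Fin.cases ?_ ?_ j
        · intro _
          simp only [Fin.cons_zero, Fin.cons_succ]
          exact (key i).symm
        · intro j hij
          simp only [Fin.cons_succ]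
          exact hd i j (fun h => hij (by rw [h]))

/-- from a full state to a function -/
theorem exists_fun {G : Type} [AddCommGroup G] [Fintype G] [DecidableEq G] {R C S : Finset G}
    {B T : Finset (G × G)} (hT : State R C S B T) (hc : T.card = R.card) (hRC : R.card = C.card)
    (hRS : R.card = S.card) : ∃ f : G → G, (∀ x ∈ R, (x, f x) ∈ T) ∧ Set.BijOn f R C ∧
      Set.BijOn (fun x => x + f x) R S := by
  have h1 : T.image Prod.fst = R := by
    apply Finset.eq_of_subset_of_card_le
    · intro x hx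
      obtain ⟨p, hp, rfl⟩ := mem_image.mp hx
      exact hT.row p hp
    · rw [Finset.card_image_of_injOn hT.pt.row, hc]
  have h2 : ∀ x, ∃ y, x ∈ R → (x, y) ∈ T := by
    intro x
    by_cases hx : x ∈ R
    · rw [← h1] at hx
      obtain ⟨p, hp, rfl⟩ := mem_image.mp hx
      exact ⟨p.2, fun _ => hp⟩
    · exact ⟨0, fun h => absurd h hx⟩
  choose f hf using h2
  refine ⟨f, hf, ?_, ?_⟩
  · have hinj : Set.InjOn f R := by
      intro x hx y hy hxy
      exact (Prod.mk.inj (hT.pt.col (hf x hx) (hf y hy) hxy)).1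
    have himg : R.image f = C := by
      apply Finset.eq_of_subset_of_card_le
      · intro y hy
        obtain ⟨x, hx, rfl⟩ := mem_image.mp hy
        exact hT.col _ (hf x hx)
      · rw [Finset.card_image_of_injOn hinj, hRC]
    refine ⟨fun x hx => hT.col _ (hf x hx), hinj, ?_⟩
    intro y hy
    rw [mem_coe, ← himg] at hy
    obtain ⟨x, hx, rfl⟩ := mem_image.mp hy
    exact ⟨x, hx, rfl⟩
  · have hinj : Set.InjOn (fun x => x + f x) R := by
      intro x hx y hy hxy
      exact (Prod.mk.inj (hT.pt.sym (hf x hx) (hf y hy) hxy)).1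
    have himg : R.image (fun x => x + f x) = S := by
      apply Finset.eq_of_subset_of_card_le
      · intro y hy
        obtain ⟨x, hx, rfl⟩ := mem_image.mp hy
        exact hT.sym _ (hf x hx)
      · rw [Finset.card_image_of_injOn hinj, hRS]
    refine ⟨fun x hx => hT.sym _ (hf x hx), hinj, ?_⟩
    intro y hy
    rw [mem_coe, ← himg] at hy
    obtain ⟨x, hx, rfl⟩ := mem_image.mp hy
    exact ⟨x, hx, rfl⟩

end Pool.Agent.Q131.NA
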