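import Pool.Agent.Q131.NA.El

set_option autoImplicit false

namespace Pool.Agent.Q131.NA

open Finset

section
variable {G : Type} [AddCommGroup G] [Fintype G] [DecidableEq G]

/-- the number of successes of the colouring `ω` of the pieces -/
def succ (C : Finset G) (lab : G → G) (θ : G × G × G × G × G) (ω : G → Fin 3) : ℕ :=
  (univ.filter fun v : G × G × G => ∀ i, el θ.1 θ.2.1 θ.2.2.1 θ.2.2.2.1 θ.2.2.2.2 v i ∉ C ∧
    ω (lab (el θ.1 θ.2.1 θ.2.2.1 θ.2.2.2.1 θ.2.2.2.2 v i)) = ty i).card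

theorem succ_diff (C : Finset G) (lab : G → G) (m : ℕ)
    (hm : ∀ u, (univ.filter fun t => t ∉ C ∧ lab t = u).card ≤ m) (θ : G × G × G × G × G)
    (ω ω' : G → Fin 3) (u : G) (h : ∀ w, w ≠ u → ω w = ω' w) :
    succ C lab θ ω ≤ succ C lab θ ω' + 12 * m * Fintype.card G ^ 2 := by
  unfold succ
  set e := el θ.1 θ.2.1 θ.2.2.1 θ.2.2.2.1 θ.2.2.2.2 with he
  have h1 : (univ.filter fun v : G × G × G => ∀ i, e v i ∉ C ∧ ω (lab (e v i)) = ty i) ⊆
      (univ.filter fun v : G × G × G => ∀ i, e v i ∉ C ∧ ω' (lab (e v i)) = ty i) ∪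
      (univ : Finset (Fin 12)).biUnion fun i => univ.filter fun v : G × G × G =>
        e v i ∈ (univ.filter fun t => t ∉ C ∧ lab t = u) := by
    intro v hv
    simp only [mem_filter, mem_univ, true_and, mem_union, mem_biUnion] at hv ⊢
    by_cases hu : ∃ i, lab (e v i) = u
    · obtain ⟨i, hi⟩ := hu
      exact Or.inr ⟨i, (hv i).1, hi⟩
    · left
      intro i
      refine ⟨(hv i).1, ?_⟩
      rw [← h _ (fun hc => hu ⟨i, hc⟩)]
      exact (hv i).2
  refine (Finset.card_le_card h1).trans ((Finset.card_union_le _ _).trans ?_)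
  apply Nat.add_le_add_left
  refine Finset.card_biUnion_le.trans ?_
  calc ∑ i : Fin 12, (univ.filter fun v : G × G × G =>
        e v i ∈ (univ.filter fun t => t ∉ C ∧ lab t = u)).card
      ≤ ∑ _i : Fin 12, m * Fintype.card G ^ 2 := by
        refine Finset.sum_le_sum fun i _ => ?_
        exact (cnt_mem _ _ _ _ _ i _).trans (Nat.mul_le_mul_right _ (hm u))
    _ = 12 * m * Fintype.card G ^ 2 := by
        simp only [Finset.sum_const, Finset.card_univ, Fintype.card_fin, smul_eq_mul]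
        ring

theorem sum_succ (hpat : S_pat) (C : Finset G) (lab : G → G) (m K : ℕ) (hK : 48 ≤ K)
    (hm : ∀ u, (univ.filter fun t => t ∉ C ∧ lab t = u).card ≤ m)
    (hC : K * C.card ≤ Fintype.card G) (hn : 4 * 144 * m ≤ Fintype.card G)
    (θ : G × G × G × G × G) :
    Fintype.card G ^ 3 * Fintype.card (G → Fin 3) ≤
      2 * 3 ^ 12 * ∑ ω : G → Fin 3, succ C lab θ ω := by
  set e := el θ.1 θ.2.1 θ.2.2.1 θ.2.2.2.1 θ.2.2.2.2 with he
  set n := Fintype.card G with hn'
  set Gd : Finset (G × G × G) := univ.filter fun v => (∀ i, e v i ∉ C) ∧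
    ∀ i j, ty i ≠ ty j → lab (e v i) ≠ lab (e v j) with hGd
  -- the sum
  have h1 : ∑ ω : G → Fin 3, succ C lab θ ω = ∑ v : G × G × G,
      (univ.filter fun ω : G → Fin 3 => ∀ i, e v i ∉ C ∧ ω (lab (e v i)) = ty i).card := by
    unfold succ
    simp only [Finset.card_filter, ← he]
    rw [Finset.sum_comm]
  have h2 : Gd.card * Fintype.card (G → Fin 3) ≤ 3 ^ 12 * ∑ ω : G → Fin 3, succ C lab θ ω := by
    rw [h1, Finset.mul_sum]
    calc Gd.card * Fintype.card (G → Fin 3) = ∑ _v ∈ Gd, Fintype.card (G → Fin 3) := by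
          rw [Finset.sum_const, smul_eq_mul]
      _ ≤ ∑ v ∈ Gd, 3 ^ 12 *
          (univ.filter fun ω : G → Fin 3 => ∀ i, e v i ∉ C ∧ ω (lab (e v i)) = ty i).card := by
          refine Finset.sum_le_sum fun v hv => ?_
          rw [hGd, mem_filter] at hv
          have h3 := hpat G (Fin 3) (Fin 12) (fun i => lab (e v i)) ty (by
            intro i j hij
            by_contra hne
            exact hv.2.2 i j hne hij)
          simp only [Fintype.card_fin] at h3
          refine h3.trans (Nat.mul_le_mul_left _ (Finset.card_le_card ?_))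
          intro ω hω
          simp only [mem_filter, mem_univ, true_and] at hω ⊢
          exact fun i => ⟨hv.2.1 i, hω i⟩
      _ ≤ _ := Finset.sum_le_sum_of_subset (Finset.subset_univ _)
  -- bad vectors
  have h3 : (Gdᶜ).card ≤ 12 * (C.card * n ^ 2) + 144 * (m * n ^ 2) := by
    have h4 : Gdᶜ ⊆ ((univ : Finset (Fin 12)).biUnion fun i =>
        univ.filter fun v : G × G × G => e v i ∈ C) ∪
        (univ : Finset (Fin 12 × Fin 12)).biUnion fun p =>
          if ty p.1 ≠ ty p.2 then univ.filter fun v : G × G × G => e v p.1 ∉ C ∧ e v p.2 ∉ C ∧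
            lab (e v p.1) = lab (e v p.2) else ∅ := by
      intro v hv
      rw [mem_compl, hGd, mem_filter] at hv
      simp only [mem_univ, true_and, not_and_or, not_forall, not_not] at hv
      by_cases h5 : ∃ i, e v i ∈ C
      · obtain ⟨i, hi⟩ := h5
        refine mem_union_left _ ?_
        simp only [mem_biUnion, mem_univ, true_and, mem_filter]
        exact ⟨i, hi⟩
      · have h6 : ∀ i, e v i ∉ C := fun i hi => h5 ⟨i, hi⟩
        rcases hv with hv | ⟨i, j, hne, hij⟩
        · exact absurd hv h5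
        · refine mem_union_right _ ?_
          simp only [mem_biUnion, mem_univ, true_and]
          refine ⟨(i, j), ?_⟩
          rw [if_pos hne]
          simp only [mem_filter, mem_univ, true_and]
          exact ⟨h6 i, h6 j, hij⟩
    refine (Finset.card_le_card h4).trans ((Finset.card_union_le _ _).trans (Nat.add_le_add ?_ ?_))
    · refine Finset.card_biUnion_le.trans ?_
      calc ∑ i : Fin 12, (univ.filter fun v : G × G × G => e v i ∈ C).card
          ≤ ∑ _i : Fin 12, C.card * n ^ 2 := Finset.sum_le_sum fun i _ => cnt_mem _ _ _ _ _ i C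
        _ = 12 * (C.card * n ^ 2) := by simp
    · refine Finset.card_biUnion_le.trans ?_
      calc ∑ p : Fin 12 × Fin 12, (if ty p.1 ≠ ty p.2 then
            univ.filter fun v : G × G × G => e v p.1 ∉ C ∧ e v p.2 ∉ C ∧
              lab (e v p.1) = lab (e v p.2) else ∅).card
          ≤ ∑ _p : Fin 12 × Fin 12, m * n ^ 2 := by
            refine Finset.sum_le_sum fun p _ => ?_
            split_ifs with hp
            · exact cnt_lab _ _ _ _ _ p.1 p.2 hp C lab m hm
            · simp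
        _ = 144 * (m * n ^ 2) := by simp
  have h5 : Gd.card + (Gdᶜ).card = n ^ 3 := by
    rw [Finset.card_add_card_compl]
    simp only [Fintype.card_prod, ← hn']
    ring
  have h6 : n ^ 3 ≤ 2 * Gd.card := by
    have h7 : 48 * C.card ≤ n := (Nat.mul_le_mul_right _ hK).trans hC
    have h8 : 12 * (C.card * n ^ 2) * 4 ≤ n ^ 3 := by
      calc 12 * (C.card * n ^ 2) * 4 = 48 * C.card * n ^ 2 := by ring
        _ ≤ n * n ^ 2 := Nat.mul_le_mul_right _ h7
        _ = n ^ 3 := by ring
    have h9 : 144 * (m * n ^ 2) * 4 ≤ n ^ 3 := by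
      calc 144 * (m * n ^ 2) * 4 = 4 * 144 * m * n ^ 2 := by ring
        _ ≤ n * n ^ 2 := Nat.mul_le_mul_right _ hn
        _ = n ^ 3 := by ring
    omega
  calc n ^ 3 * Fintype.card (G → Fin 3) ≤ 2 * Gd.card * Fintype.card (G → Fin 3) :=
        Nat.mul_le_mul_right _ h6
    _ = 2 * (Gd.card * Fintype.card (G → Fin 3)) := by ring
    _ ≤ 2 * (3 ^ 12 * ∑ ω : G → Fin 3, succ C lab θ ω) := Nat.mul_le_mul_left _ h2
    _ = _ := by ring

theorem many_of (hpat : S_pat) (hmcd : S_mcd) (C : Finset G) (lab : G → G) (K : ℕ) (hK : 48 ≤ K)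
    (hm : ∀ u, (univ.filter fun t => t ∉ C ∧ lab t = u).card ≤ 2 * K)
    (hC : K * C.card ≤ Fintype.card G) (hn : 4 * 144 * (2 * K) ≤ Fintype.card G)
    (hexp : (Fintype.card G : ℝ) ^ 5 * Real.exp (-((Fintype.card G : ℝ) /
      (32 * 3 ^ 24 * (24 * K) ^ 2))) < 1) :
    ∃ ω : G → Fin 3, ∀ θ, Fintype.card G ^ 3 ≤ 4 * 3 ^ 12 * succ C lab θ ω := by
  by_contra hcon
  push Not at hcon
  set n := Fintype.card G with hn'
  have hK0 : 0 < K := by omega
  have hn0 : 0 < n := by omega
  have hnR : (0 : ℝ) < n := by exact_mod_cast hn0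
  have hKR : (0 : ℝ) < K := by exact_mod_cast hK0
  have hNpos : (0 : ℝ) < (Fintype.card (G → Fin 3) : ℝ) := by exact_mod_cast Fintype.card_pos
  set L : ℝ := 24 * K * (n : ℝ) ^ 2 with hL
  set t : ℝ := (n : ℝ) ^ 3 / (4 * 3 ^ 12) with ht
  have hne : Nonempty G := Fintype.card_pos_iff.mp hn0
  have h1 : ∀ θ : G × G × G × G × G, ((univ.filter fun ω : G → Fin 3 =>
      4 * 3 ^ 12 * succ C lab θ ω < n ^ 3).card : ℝ) ≤ (Fintype.card (G → Fin 3) : ℝ) *
        Real.exp (-((n : ℝ) / (32 * 3 ^ 24 * (24 * K) ^ 2))) := by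
    intro θ
    have h2 := hmcd G (Fin 3) (fun ω => (succ C lab θ ω : ℝ)) L t (by positivity) (by positivity)
      (by
        intro ω u a
        have h3 := succ_diff C lab (2 * K) hm θ (Function.update ω u a) ω u
          (fun w hw => Function.update_of_ne hw _ _)
        have h4 := succ_diff C lab (2 * K) hm θ ω (Function.update ω u a) u
          (fun w hw => (Function.update_of_ne hw _ _).symm)
        rw [← hn'] at h3 h4
        have h5 : ((12 * (2 * K) * n ^ 2 : ℕ) : ℝ) = L := by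
          rw [hL]; push_cast; ring
        rw [abs_le]
        constructor
        · have : (succ C lab θ ω : ℝ) ≤ succ C lab θ (Function.update ω u a) + L := by
            rw [← h5]; exact_mod_cast h4
          linarith
        · have : (succ C lab θ (Function.update ω u a) : ℝ) ≤ succ C lab θ ω + L := by
            rw [← h5]; exact_mod_cast h3
          linarith)
    have h6 : -(t ^ 2) / (2 * (n : ℝ) * L ^ 2) = -((n : ℝ) / (32 * 3 ^ 24 * (24 * K) ^ 2)) := by
      rw [ht, hL]
      field_simp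
      ring
    rw [← hn', h6] at h2
    refine le_trans ?_ h2
    norm_cast
    refine Finset.card_le_card ?_
    intro ω hω
    simp only [mem_filter, mem_univ, true_and] at hω ⊢
    have h7 := sum_succ hpat C lab (2 * K) K hK hm hC hn θ
    have h8 : (n : ℝ) ^ 3 * (Fintype.card (G → Fin 3) : ℝ) ≤
        2 * 3 ^ 12 * ∑ ω : G → Fin 3, (succ C lab θ ω : ℝ) := by exact_mod_cast h7
    have h9 : (n : ℝ) ^ 3 / (2 * 3 ^ 12) ≤
        (∑ ω : G → Fin 3, (succ C lab θ ω : ℝ)) / (Fintype.card (G → Fin 3) : ℝ) := by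
      rw [div_le_div_iff₀ (by positivity) hNpos]
      linarith
    have h10 : 4 * 3 ^ 12 * (succ C lab θ ω : ℝ) ≤ (n : ℝ) ^ 3 := by exact_mod_cast hω.le
    have h11 : (succ C lab θ ω : ℝ) ≤ (n : ℝ) ^ 3 / (4 * 3 ^ 12) := by
      rw [le_div_iff₀ (by positivity)]
      linarith
    have h12 : (n : ℝ) ^ 3 / (2 * 3 ^ 12) - t = (n : ℝ) ^ 3 / (4 * 3 ^ 12) := by
      rw [ht]
      ring
    push_cast
    linarith
  have h2 : (univ : Finset (G → Fin 3)) ⊆ (univ : Finset (G × G × G × G × G)).biUnion fun θ =>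
      univ.filter fun ω : G → Fin 3 => 4 * 3 ^ 12 * succ C lab θ ω < n ^ 3 := by
    intro ω _
    obtain ⟨θ, hθ⟩ := hcon ω
    simp only [mem_biUnion, mem_univ, true_and, mem_filter]
    exact ⟨θ, hθ⟩
  have h3 : (Fintype.card (G → Fin 3) : ℝ) ≤ ∑ θ : G × G × G × G × G, ((univ.filter
      fun ω : G → Fin 3 => 4 * 3 ^ 12 * succ C lab θ ω < n ^ 3).card : ℝ) := by
    have h4 := (Finset.card_le_card h2).trans Finset.card_biUnion_le
    rw [Finset.card_univ] at h4
    exact_mod_cast h4
  have h4 : ∑ θ : G × G × G × G × G, ((univ.filter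
      fun ω : G → Fin 3 => 4 * 3 ^ 12 * succ C lab θ ω < n ^ 3).card : ℝ) ≤
      (n : ℝ) ^ 5 * ((Fintype.card (G → Fin 3) : ℝ) *
        Real.exp (-((n : ℝ) / (32 * 3 ^ 24 * (24 * K) ^ 2)))) := by
    refine (Finset.sum_le_sum fun θ _ => h1 θ).trans (le_of_eq ?_)
    rw [Finset.sum_const, Finset.card_univ, nsmul_eq_mul]
    congr 1
    simp only [Fintype.card_prod, ← hn']
    push_cast
    ring
  have h5 := h3.trans h4
  have h6 : (Fintype.card (G → Fin 3) : ℝ) < (Fintype.card (G → Fin 3) : ℝ) := by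
    calc (Fintype.card (G → Fin 3) : ℝ) ≤ _ := h5
      _ = (Fintype.card (G → Fin 3) : ℝ) * ((n : ℝ) ^ 5 *
        Real.exp (-((n : ℝ) / (32 * 3 ^ 24 * (24 * K) ^ 2)))) := by ring
      _ < (Fintype.card (G → Fin 3) : ℝ) * 1 := by
        apply mul_lt_mul_of_pos_left hexp hNpos
      _ = _ := mul_one _
  exact lt_irrefl _ h6

end

theorem exists_n0 (c : ℝ) (hc : 0 < c) : ∃ n₀ : ℕ, ∀ n : ℕ, n₀ ≤ n →
    (n : ℝ) ^ 5 * Real.exp (-((n : ℝ) / c)) < 1 := by
  have h1 := Real.tendsto_pow_mul_exp_neg_atTop_nhds_zero 5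
  have h2 : Filter.Tendsto (fun n : ℕ => (n : ℝ) / c) Filter.atTop Filter.atTop :=
    tendsto_natCast_atTop_atTop.atTop_div_const hc
  have h3 := (h1.comp h2).eventually (gt_mem_nhds (show (0 : ℝ) < 1 / c ^ 5 by positivity))
  obtain ⟨n₀, hn₀⟩ := Filter.eventually_atTop.mp h3
  refine ⟨n₀, fun n hn => ?_⟩
  have h4 := hn₀ n hn
  simp only [Function.comp] at h4
  have h5 : (n : ℝ) ^ 5 * Real.exp (-((n : ℝ) / c)) =
      c ^ 5 * (((n : ℝ) / c) ^ 5 * Real.exp (-((n : ℝ) / c))) := by
    field_simp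
  rw [h5]
  calc c ^ 5 * (((n : ℝ) / c) ^ 5 * Real.exp (-((n : ℝ) / c))) < c ^ 5 * (1 / c ^ 5) :=
        mul_lt_mul_of_pos_left h4 (by positivity)
    _ = 1 := by field_simp

theorem two_bij {G : Type} [AddCommGroup G] [Fintype G] (h : Odd (Fintype.card G)) :
    Function.Bijective fun t : G => t + t := by
  rw [← Finite.injective_iff_bijective]
  intro a b hab
  have h1 : (2 : ℕ) • (a - b) = 0 := by
    simp only at hab
    rw [two_nsmul]
    have : a - b + (a - b) = (a + a) - (b + b) := by abel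
    rw [this, hab, sub_self]
  have h2 : addOrderOf (a - b) ∣ 2 := addOrderOf_dvd_of_nsmul_eq_zero h1
  have h3 : addOrderOf (a - b) ∣ Fintype.card G := addOrderOf_dvd_card
  have h4 : addOrderOf (a - b) = 1 := by
    rcases (Nat.dvd_prime Nat.prime_two).mp h2 with h | h'
    · exact h
    · rw [h'] at h3
      exact absurd (even_iff_two_dvd.mpr h3) (Nat.not_even_iff_odd.mpr h)
  rw [AddMonoid.addOrderOf_eq_one_iff] at h4
  exact sub_eq_zero.mp h4

theorem rich (hseg : S_seg) (hmcd : S_mcd) (hpat : S_pat) : S_rich := by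
  intro K hK
  obtain ⟨n₀, hn₀⟩ := exists_n0 (32 * 3 ^ 24 * (24 * K) ^ 2) (by
    have : (0 : ℝ) < K := by
      have : 0 < K := by omega
      exact_mod_cast this
    positivity)
  refine ⟨max n₀ (4 * 144 * (2 * K)), fun G _ _ _ hodd hn => ?_⟩
  have hb := two_bij hodd
  have hb2 : Function.Bijective fun t : G => -(t + t) := (neg_involutive.bijective).comp hb
  obtain ⟨C, lab, hC, hlab, hm⟩ := hseg G (Equiv.ofBijective _ hb2) K (by omega)
  obtain ⟨ω, hω⟩ := many_of hpat hmcd C lab K hK hm hC (le_trans (le_max_right _ _) hn)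
    (hn₀ _ (le_trans (le_max_left _ _) hn))
  refine ⟨fun t => if t ∈ C then none else some (ω (lab t)), ?_, ?_, ?_⟩
  · intro t i j h1 h2
    by_cases h3 : t ∈ C
    · rw [if_pos h3] at h1
      exact absurd h1 (by simp)
    · by_cases h4 : -(t + t) ∈ C
      · rw [if_pos h4] at h2
        exact absurd h2 (by simp)
      · rw [if_neg h3] at h1
        rw [if_neg h4] at h2
        have h5 := hlab t h3 h4
        simp only [Equiv.ofBijective_apply] at h5
        rw [h5] at h2
        rw [← Option.some.inj h1, ← Option.some.inj h2]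
  · refine le_trans (Nat.mul_le_mul_left _ (Finset.card_le_card ?_)) hC
    intro t ht
    simp only [mem_filter, mem_univ, true_and] at ht
    by_contra h
    rw [if_neg h] at ht
    exact absurd ht (by simp)
  · intro r₁ c₁ r₂ c₂ z
    refine (hω (r₁, c₁, r₂, c₂, z)).trans (Nat.mul_le_mul_left _ (Finset.card_le_card ?_))
    intro v hv
    simp only [mem_filter, mem_univ, true_and] at hv ⊢
    intro i
    rw [if_neg (hv i).1, (hv i).2]

end Pool.Agent.Q131.NA
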