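import Pool.Agent.Q131.NA.Cover

set_option autoImplicit false

namespace Pool.Agent.Q131.NA

open Finset

section
variable {G : Type} [AddCommGroup G] [Fintype G] [DecidableEq G]

/-- the cells of `B` outside the exceptional rows `X`, columns `Y` and symbols `Z` -/
def core (B : Finset (G × G)) (X Y Z : Finset G) : Finset (G × G) :=
  B.filter fun p => p.1 ∉ X ∧ p.2 ∉ Y ∧ p.1 + p.2 ∉ Z

theorem sum_sdiff_image {R : Finset G} {P : Finset (G × G)} (f : G × G → G)
    (hf : Set.InjOn f (P : Set (G × G))) (hP : ∀ p ∈ P, f p ∈ R) :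
    ∑ x ∈ R \ P.image f, x = ∑ x ∈ R, x - ∑ p ∈ P, f p := by
  rw [eq_sub_iff_add_eq, ← Finset.sum_sdiff (s₁ := P.image f) (s₂ := R)]
  · rw [Finset.sum_image hf]
  · intro x hx
    obtain ⟨p, hp, rfl⟩ := mem_image.mp hx
    exact hP p hp

theorem card_sdiff_image {R : Finset G} {P : Finset (G × G)} (f : G × G → G)
    (hf : Set.InjOn f (P : Set (G × G))) (hP : ∀ p ∈ P, f p ∈ R) :
    (R \ P.image f).card + P.card = R.card := by
  rw [← Finset.card_image_of_injOn hf]
  apply Finset.card_sdiff_add_card_eq_card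
  intro x hx
  obtain ⟨p, hp, rfl⟩ := mem_image.mp hx
  exact hP p hp

/-- the union of a partial transversal and a transversal of the rest -/
theorem State.glue {R C S : Finset G} {B B' P T : Finset (G × G)} (hP : State R C S B P)
    (hT : State (R \ P.image Prod.fst) (C \ P.image Prod.snd)
      (S \ P.image fun p => p.1 + p.2) B' T) (hB : ∀ p ∈ T, p ∉ B) :
    State R C S B (P ∪ T) ∧ (P ∪ T).card = P.card + T.card := by
  have h1 : ∀ p ∈ P, ∀ q ∈ T, p.1 ≠ q.1 := by
    intro p hp q hq h
    exact (mem_sdiff.mp (hT.row q hq)).2 (mem_image.mpr ⟨p, hp, h⟩)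
  have h2 : ∀ p ∈ P, ∀ q ∈ T, p.2 ≠ q.2 := by
    intro p hp q hq h
    exact (mem_sdiff.mp (hT.col q hq)).2 (mem_image.mpr ⟨p, hp, h⟩)
  have h3 : ∀ p ∈ P, ∀ q ∈ T, p.1 + p.2 ≠ q.1 + q.2 := by
    intro p hp q hq h
    exact (mem_sdiff.mp (hT.sym q hq)).2 (mem_image.mpr ⟨p, hp, h⟩)
  refine ⟨⟨⟨?_, ?_, ?_⟩, ?_, ?_, ?_, ?_⟩, ?_⟩
  · intro p hp q hq h
    simp only [coe_union, Set.mem_union, mem_coe] at hp hq h
    rcases hp with hp | hp <;> rcases hq with hq | hq
    · exact hP.pt.row hp hq h
    · exact absurd h (h1 p hp q hq)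
    · exact absurd h.symm (h1 q hq p hp)
    · exact hT.pt.row hp hq h
  · intro p hp q hq h
    simp only [coe_union, Set.mem_union, mem_coe] at hp hq h
    rcases hp with hp | hp <;> rcases hq with hq | hq
    · exact hP.pt.col hp hq h
    · exact absurd h (h2 p hp q hq)
    · exact absurd h.symm (h2 q hq p hp)
    · exact hT.pt.col hp hq h
  · intro p hp q hq h
    simp only [coe_union, Set.mem_union, mem_coe] at hp hq h
    rcases hp with hp | hp <;> rcases hq with hq | hq
    · exact hP.pt.sym hp hq h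
    · exact absurd h (h3 p hp q hq)
    · exact absurd h.symm (h3 q hq p hp)
    · exact hT.pt.sym hp hq h
  · intro p hp
    rcases mem_union.mp hp with hp | hp
    · exact hP.row p hp
    · exact (mem_sdiff.mp (hT.row p hp)).1
  · intro p hp
    rcases mem_union.mp hp with hp | hp
    · exact hP.col p hp
    · exact (mem_sdiff.mp (hT.col p hp)).1
  · intro p hp
    rcases mem_union.mp hp with hp | hp
    · exact hP.sym p hp
    · exact (mem_sdiff.mp (hT.sym p hp)).1
  · intro p hp
    rcases mem_union.mp hp with hp | hp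
    · exact hP.out p hp
    · exact hB p hp
  · apply Finset.card_union_of_disjoint
    rw [Finset.disjoint_left]
    intro p hp hq
    exact h1 p hp p hq rfl

end

/-- exceptional lines -/
structure Exc {G : Type} [AddCommGroup G] [Fintype G] [DecidableEq G] (B : Finset (G × G))
    (X Y Z : Finset G) (D a : ℕ) : Prop where
  row : ∀ x, x ∉ X → (univ.filter fun y => (x, y) ∈ B).card ≤ D
  col : ∀ y, y ∉ Y → (univ.filter fun x => (x, y) ∈ B).card ≤ D
  sym : ∀ s, s ∉ Z → (univ.filter fun x => (x, s - x) ∈ B).card ≤ D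
  row' : ∀ x ∈ X, a < (univ.filter fun y => (x, y) ∉ B).card
  col' : ∀ y ∈ Y, a < (univ.filter fun x => (x, y) ∉ B).card
  sym' : ∀ s ∈ Z, a < (univ.filter fun x => (x, s - x) ∉ B).card

theorem Exc.core {G : Type} [AddCommGroup G] [Fintype G] [DecidableEq G] {B : Finset (G × G)}
    {X Y Z : Finset G} {D a : ℕ} (h : Exc B X Y Z D a) : Sparse (core B X Y Z) D := by
  unfold NA.core
  refine ⟨fun x => ?_, fun y => ?_, fun s => ?_⟩
  · by_cases hx : x ∈ X
    · rw [Finset.filter_false_of_mem (by
        intro y _ hy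
        rw [mem_filter] at hy
        exact hy.2.1 hx)]
      simp
    · refine le_trans (Finset.card_le_card ?_) (h.row x hx)
      intro y hy
      simp only [mem_filter, mem_univ, true_and] at hy ⊢
      exact hy.1
  · by_cases hy : y ∈ Y
    · rw [Finset.filter_false_of_mem (by
        intro x _ hx
        rw [mem_filter] at hx
        exact hx.2.2.1 hy)]
      simp
    · refine le_trans (Finset.card_le_card ?_) (h.col y hy)
      intro x hx
      simp only [mem_filter, mem_univ, true_and] at hx ⊢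
      exact hx.1
  · by_cases hs : s ∈ Z
    · rw [Finset.filter_false_of_mem (by
        intro x _ hx
        rw [mem_filter] at hx
        exact hx.2.2.2 (by simpa using hs))]
      simp
    · refine le_trans (Finset.card_le_card ?_) (h.sym s hs)
      intro x hx
      simp only [mem_filter, mem_univ, true_and] at hx ⊢
      exact hx.1

theorem Exc.union {G : Type} [AddCommGroup G] [Fintype G] [DecidableEq G] {B T : Finset (G × G)}
    {X Y Z : Finset G} {D a : ℕ} (h : Exc B X Y Z D (a + 1)) (hT : PT T) :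
    Exc (B ∪ T) X Y Z (D + 1) a := by
  have key : ∀ (f : G → G × G), (univ.filter fun y => f y ∈ T).card ≤ 1 →
      (univ.filter fun y => f y ∈ B ∪ T).card ≤ (univ.filter fun y => f y ∈ B).card + 1 ∧
      (univ.filter fun y => f y ∉ B).card ≤ (univ.filter fun y => f y ∉ B ∪ T).card + 1 := by
    intro f hf
    constructor
    · have h1 : (univ.filter fun y => f y ∈ B ∪ T) =
          (univ.filter fun y => f y ∈ B) ∪ (univ.filter fun y => f y ∈ T) := by
        ext y; simp
      rw [h1]
      exact (Finset.card_union_le _ _).trans (Nat.add_le_add le_rfl hf)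
    · have h1 : (univ.filter fun y => f y ∉ B) ⊆
          (univ.filter fun y => f y ∉ B ∪ T) ∪ (univ.filter fun y => f y ∈ T) := by
        intro y hy
        simp only [mem_filter, mem_univ, true_and, mem_union] at hy ⊢
        by_cases hyT : f y ∈ T
        · exact Or.inr hyT
        · exact Or.inl (fun hc => hc.elim hy hyT)
      exact (Finset.card_le_card h1).trans
        ((Finset.card_union_le _ _).trans (Nat.add_le_add le_rfl hf))
  refine ⟨fun x hx => ?_, fun y hy => ?_, fun s hs => ?_, fun x hx => ?_, fun y hy => ?_,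
    fun s hs => ?_⟩
  · have := (key (fun y => (x, y)) (card_le_one_of_pt_row hT x)).1
    have := h.row x hx
    omega
  · have := (key (fun x => (x, y)) (card_le_one_of_pt_col hT y)).1
    have := h.col y hy
    omega
  · have := (key (fun x => (x, s - x)) (card_le_one_of_pt_sym hT s)).1
    have := h.sym s hs
    omega
  · have := (key (fun y => (x, y)) (card_le_one_of_pt_row hT x)).2
    have := h.row' x hx
    omega
  · have := (key (fun x => (x, y)) (card_le_one_of_pt_col hT y)).2
    have := h.col' y hy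
    omega
  · have := (key (fun x => (x, s - x)) (card_le_one_of_pt_sym hT s)).2
    have := h.sym' s hs
    omega

/-- **One transversal with exceptional lines.** -/
theorem exc_one : ∃ n₀ : ℕ, ∀ (G : Type) [AddCommGroup G] [Fintype G] [DecidableEq G],
    Odd (Fintype.card G) → n₀ ≤ Fintype.card G →
    ∀ (R C S : Finset G) (B : Finset (G × G)) (X Y Z : Finset G) (D a m q : ℕ),
      Exc B X Y Z D a → R.card = C.card → R.card = S.card →
      ∑ x ∈ R, x + ∑ y ∈ C, y = ∑ s ∈ S, s → Fintype.card G - R.card ≤ m →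
      X.card + Y.card + Z.card ≤ q → 2 * m + 2 * q ≤ a →
      10 ^ 10 * (m + q) ≤ Fintype.card G → 10 ^ 10 * D ≤ Fintype.card G →
      ∃ T : Finset (G × G), State R C S B T ∧ T.card = R.card := by
  obtain ⟨n₀, hn₀⟩ := main_thm
  refine ⟨n₀, fun G _ _ _ hodd hn R C S B X Y Z D a m q hE hRC hRS hsum hm hq ha hmq hD => ?_⟩
  have hcR : (Rᶜ).card ≤ m := by rw [card_compl]; exact hm
  have hcC : (Cᶜ).card ≤ m := by rw [card_compl, ← hRC]; exact hm
  have hcS : (Sᶜ).card ≤ m := by rw [card_compl, ← hRS]; exact hm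
  have hempty : State R C S B ∅ := by
    refine ⟨⟨?_, ?_, ?_⟩, ?_, ?_, ?_, ?_⟩ <;> simp
  have b1 := Finset.card_le_card (Finset.inter_subset_left (s₁ := X) (s₂ := R))
  have b2 := Finset.card_le_card (Finset.inter_subset_left (s₁ := Y) (s₂ := C))
  have b3 := Finset.card_le_card (Finset.inter_subset_left (s₁ := Z) (s₂ := S))
  obtain ⟨P, -, hP, hPq, hX, hY, hZ⟩ := cover R C S B (X ∩ R) (Y ∩ C) (Z ∩ S)
    inter_subset_right inter_subset_right inter_subset_right m q hcR hcC hcS
    (fun x hx => lt_of_le_of_lt ha (hE.row' x (mem_inter.mp hx).1))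
    (fun y hy => lt_of_le_of_lt ha (hE.col' y (mem_inter.mp hy).1))
    (fun s hs => lt_of_le_of_lt ha (hE.sym' s (mem_inter.mp hs).1)) q ∅ hempty
    (by simpa using (by omega : (X ∩ R).card + (Y ∩ C).card + (Z ∩ S).card ≤ q)) (by simp)
  have cR := card_sdiff_image Prod.fst hP.pt.row hP.row
  have cC := card_sdiff_image Prod.snd hP.pt.col hP.col
  have cS := card_sdiff_image (fun p : G × G => p.1 + p.2) hP.pt.sym hP.sym
  have sR := sum_sdiff_image Prod.fst hP.pt.row hP.row
  have sC := sum_sdiff_image Prod.snd hP.pt.col hP.col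
  have sS := sum_sdiff_image (fun p : G × G => p.1 + p.2) hP.pt.sym hP.sym
  obtain ⟨T, hT, hTc⟩ := hn₀ G hodd hn (R \ P.image Prod.fst) (C \ P.image Prod.snd)
    (S \ P.image fun p => p.1 + p.2) (core B X Y Z) D hE.core (by omega) (by omega)
    (by
      rw [sR, sC, sS, ← hsum, Finset.sum_add_distrib]
      abel)
    (le_trans (Nat.mul_le_mul_left _ (by omega)) hmq) hD
  obtain ⟨h1, h2⟩ := hP.glue hT (by
    intro p hp hpB
    have h1 := mem_sdiff.mp (hT.row p hp)
    have h2 := mem_sdiff.mp (hT.col p hp)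
    have h3 := mem_sdiff.mp (hT.sym p hp)
    refine hT.out p hp ?_
    unfold core
    rw [mem_filter]
    refine ⟨hpB, fun h => h1.2 (hX (mem_inter.mpr ⟨h, h1.1⟩)),
      fun h => h2.2 (hY (mem_inter.mpr ⟨h, h2.1⟩)), fun h => h3.2 (hZ (mem_inter.mpr ⟨h, h3.1⟩))⟩)
  exact ⟨P ∪ T, h1, by omega⟩

/-- **Many disjoint transversals with exceptional lines.** -/
theorem exc_many : ∃ n₀ : ℕ, ∀ (G : Type) [AddCommGroup G] [Fintype G] [DecidableEq G],
    Odd (Fintype.card G) → n₀ ≤ Fintype.card G →
    ∀ (R C S : Finset G) (X Y Z : Finset G) (m q : ℕ), R.card = C.card → R.card = S.card →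
      ∑ x ∈ R, x + ∑ y ∈ C, y = ∑ s ∈ S, s → Fintype.card G - R.card ≤ m →
      X.card + Y.card + Z.card ≤ q → 10 ^ 10 * (m + q) ≤ Fintype.card G →
      ∀ (t : ℕ) (B : Finset (G × G)) (D : ℕ), Exc B X Y Z D (2 * m + 2 * q + t) →
        10 ^ 10 * (D + t) ≤ Fintype.card G →
        ∃ T : Fin (t + 1) → Finset (G × G), (∀ i, State R C S B (T i) ∧ (T i).card = R.card) ∧
          ∀ i j, i ≠ j → Disjoint (T i) (T j) := by
  obtain ⟨n₀, hn₀⟩ := exc_one
  refine ⟨n₀, fun G _ _ _ hodd hn R C S X Y Z m q hRC hRS hsum hm hq hmq t => ?_⟩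
  induction t with
  | zero =>
    intro B D hB hD
    obtain ⟨T, hT, hTc⟩ := hn₀ G hodd hn R C S B X Y Z D _ m q hB hRC hRS hsum hm hq le_rfl hmq
      (by simpa using hD)
    exact ⟨fun _ => T, fun _ => ⟨hT, hTc⟩, fun i j hij => absurd (Subsingleton.elim (α := Fin 1) i j) hij⟩
  | succ t ih =>
    intro B D hB hD
    obtain ⟨T, hT, hTc⟩ := hn₀ G hodd hn R C S B X Y Z D _ m q hB hRC hRS hsum hm hq (by omega) hmq
      (le_trans (Nat.mul_le_mul_left _ (by omega)) hD)
    obtain ⟨T', hT', hd⟩ := ih (B ∪ T) (D + 1) (hB.union hT.pt)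
      (le_trans (Nat.mul_le_mul_left _ (by omega)) hD)
    refine ⟨Fin.cons T T', ?_, ?_⟩
    · intro i
      refine Fin.cases ?_ ?_ i
      · exact ⟨hT, hTc⟩
      · intro i
        simp only [Fin.cons_succ]
        exact ⟨(hT' i).1.anti subset_union_left, (hT' i).2⟩
    · have key : ∀ i, Disjoint T (T' i) := by
        intro i
        rw [Finset.disjoint_left]
        intro p hp hp'
        exact (hT' i).1.out p hp' (mem_union_right _ hp)
      intro i j
      refine Fin.cases ?_ ?_ i
      · refine Fin.cases ?_ ?_ j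
        · intro h; exact absurd rfl h
        · intro j _
          simp only [Fin.cons_zero, Fin.cons_succ]
          exact key j
      · intro i
        refine Fin.cases ?_ ?_ j
        · intro _
          simp only [Fin.cons_zero, Fin.cons_succ]
          exact (key i).symm
        · intro j hij
          simp only [Fin.cons_succ]
          exact hd i j (fun h => hij (by rw [h]))

end Pool.Agent.Q131.NA
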